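import Pool.Agent.R556.CP.Defs

/-! CP-C of project CP (MP_249059_co): order patterns of i.i.d. uniform variables. -/

open MeasureTheory Set
open scoped ENNReal unitInterval

namespace R556.CP

/-- the chamber of the permutation `w` -/
def Cham (n : ℕ) (w : Equiv.Perm (Fin n)) : Set (Fin n → I) :=
  {X | ∀ i j, X i < X j ↔ w i < w j}

lemma measurableSet_cham (n : ℕ) (w : Equiv.Perm (Fin n)) : MeasurableSet (Cham n w) := by
  have h : Cham n w = ⋂ i : Fin n, ⋂ j : Fin n, {X : Fin n → I | X i < X j ↔ w i < w j} := by
    ext X; simp [Cham]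
  rw [h]
  refine MeasurableSet.iInter fun i => MeasurableSet.iInter fun j => ?_
  have hm : MeasurableSet {X : Fin n → I | X i < X j} :=
    measurableSet_lt (measurable_pi_apply i) (measurable_pi_apply j)
  by_cases hw : w i < w j
  · simpa [hw] using hm
  · have : {X : Fin n → I | X i < X j ↔ w i < w j} = {X : Fin n → I | X i < X j}ᶜ := by
      ext X; simp [hw]
    rw [this]; exact hm.compl

lemma volume_cham (n : ℕ) (w : Equiv.Perm (Fin n)) :
    (volume : Measure (Fin n → I)) (Cham n w) = volume (Cham n 1) := by
  have hmp := volume_measurePreserving_piCongrLeft (fun _ : Fin n => I) w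
  have hpre : (MeasurableEquiv.piCongrLeft (fun _ : Fin n => I) w) ⁻¹' (Cham n 1) = Cham n w := by
    ext X
    simp only [Cham, mem_preimage, Set.mem_ofPred_eq]
    constructor
    · intro h i j
      have := h (w i) (w j)
      simpa [MeasurableEquiv.coe_piCongrLeft, Equiv.piCongrLeft_apply] using this
    · intro h i j
      have := h (w.symm i) (w.symm j)
      simpa [MeasurableEquiv.coe_piCongrLeft, Equiv.piCongrLeft_apply] using this
  rw [← hpre]
  exact hmp.measure_preimage (measurableSet_cham n 1).nullMeasurableSet

lemma cham_disjoint (n : ℕ) {w w' : Equiv.Perm (Fin n)} {X : Fin n → I}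
    (h : X ∈ Cham n w) (h' : X ∈ Cham n w') : w = w' := by
  have hm : StrictMono (fun i => w' (w.symm i)) := by
    intro i j hij
    have h1 := h (w.symm i) (w.symm j)
    have h2 := h' (w.symm i) (w.symm j)
    simp only [Equiv.apply_symm_apply] at h1
    exact h2.1 (h1.2 hij)
  have hid : (fun i => w' (w.symm i)) = id := by
    have := Subsingleton.elim
      (hm.orderIsoOfSurjective _ (w'.surjective.comp w.symm.surjective)) (OrderIso.refl (Fin n))
    funext i
    exact congrArg (fun e : Fin n ≃o Fin n => e i) this
  ext i
  have := congrFun hid (w i)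
  simp at this
  rw [this]

lemma exists_cham (n : ℕ) {X : Fin n → I} (hX : Function.Injective X) :
    ∃ w, X ∈ Cham n w := by
  have hs : StrictMono (X ∘ Tuple.sort X) :=
    (Tuple.monotone_sort X).strictMono_of_injective (hX.comp (Tuple.sort X).injective)
  refine ⟨(Tuple.sort X).symm, fun i j => ?_⟩
  have := hs.lt_iff_lt (a := (Tuple.sort X).symm i) (b := (Tuple.sort X).symm j)
  simpa using this

lemma ae_injective (n : ℕ) : ∀ᵐ X : Fin n → I, Function.Injective X := by
  have h : ∀ i j : Fin n, i ≠ j → ∀ᵐ X : Fin n → I, X i ≠ X j := by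
    intro i j hij
    cases n with
    | zero => exact i.elim0
    | succ m =>
      obtain ⟨k, rfl⟩ := Fin.exists_succAbove_eq (Ne.symm hij)
      have hmp := volume_preserving_piFinSuccAbove (fun _ : Fin (m + 1) => I) i
      have hs : MeasurableSet {p : I × (Fin m → I) | p.1 = p.2 k} :=
        measurableSet_eq_fun measurable_fst ((measurable_pi_apply k).comp measurable_snd)
      have h0 : (volume : Measure (I × (Fin m → I))) {p : I × (Fin m → I) | p.1 = p.2 k} = 0 := by
        rw [Measure.volume_eq_prod, Measure.measure_prod_null hs]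
        refine Filter.Eventually.of_forall fun x => ?_
        have : Prod.mk x ⁻¹' {p : I × (Fin m → I) | p.1 = p.2 k} = {q : Fin m → I | q k = x} := by
          ext q; simp [eq_comm]
        show (volume : Measure (Fin m → I)) (Prod.mk x ⁻¹' {p : I × (Fin m → I) | p.1 = p.2 k}) = 0
        rw [this]
        exact Measure.pi_hyperplane (fun _ : Fin m => (volume : Measure I)) k x
      have h1 := hmp.measure_preimage hs.nullMeasurableSet
      rw [h0] at h1
      rw [ae_iff]
      have hset : {X : Fin (m + 1) → I | ¬ X i ≠ X (i.succAbove k)} =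
          (MeasurableEquiv.piFinSuccAbove (fun _ : Fin (m + 1) => I) i) ⁻¹'
            {p : I × (Fin m → I) | p.1 = p.2 k} := by
        ext X
        show ¬ X i ≠ X (i.succAbove k) ↔ X i = X (i.succAbove k)
        exact not_not
      rw [hset]
      exact h1
  have h2 : ∀ᵐ X : Fin n → I, ∀ i j : Fin n, i ≠ j → X i ≠ X j := by
    rw [ae_all_iff]; intro i
    rw [ae_all_iff]; intro j
    by_cases hij : i = j
    · simp [hij]
    · simpa [hij] using h i j hij
  filter_upwards [h2] with X hX i j hij
  by_contra hne
  exact hX i j hne hij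

lemma ae_cham (n : ℕ) : ∀ᵐ X : Fin n → I, ∃ w, X ∈ Cham n w := by
  filter_upwards [ae_injective n] with X hX using exists_cham n hX

open Classical in
lemma volume_union (n : ℕ) (s : Finset (Equiv.Perm (Fin n))) :
    (volume : Measure (Fin n → I)) (⋃ w ∈ s, Cham n w) = s.card * volume (Cham n 1) := by
  rw [measure_biUnion_finset]
  · rw [Finset.sum_congr rfl (fun w _ => volume_cham n w)]
    simp
  · intro w _ w' _ hne
    refine Set.disjoint_left.2 fun X h h' => hne (cham_disjoint n h h')
  · intro w _
    exact measurableSet_cham n w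

lemma volume_cham_one (n : ℕ) :
    (volume : Measure (Fin n → I)) (Cham n 1) = 1 / (n.factorial : ℝ≥0∞) := by
  have h1 : (volume : Measure (Fin n → I)) (⋃ w ∈ (Finset.univ : Finset (Equiv.Perm (Fin n))), Cham n w) = 1 := by
    rw [← measure_univ (μ := (volume : Measure (Fin n → I)))]
    apply measure_congr
    filter_upwards [ae_cham n] with X hX
    obtain ⟨w, hw⟩ := hX
    apply propext
    constructor
    · intro _; trivial
    · intro _
      exact Set.mem_biUnion (Finset.mem_coe.2 (Finset.mem_univ w)) hw
  rw [volume_union, Finset.card_univ, Fintype.card_perm, Fintype.card_fin] at h1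
  rw [ENNReal.eq_div_iff (by exact_mod_cast n.factorial_ne_zero) (ENNReal.natCast_ne_top _)]
  exact h1

open Classical in
theorem stmtC : StmtC := by
  intro n P
  have h : (volume : Measure (Fin n → I)) {X | P (fun i j => X i < X j)} =
      volume (⋃ w ∈ (Finset.univ.filter (fun w : Equiv.Perm (Fin n) => P (fun i j => w i < w j))),
        Cham n w) := by
    apply measure_congr
    filter_upwards [ae_cham n] with X hX
    obtain ⟨w, hw⟩ := hX
    have key : ∀ w', X ∈ Cham n w' → (fun i j => X i < X j) = (fun i j => w' i < w' j) := by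
      intro w' hw'
      funext i j
      exact propext (hw' i j)
    apply propext
    constructor
    · intro hP
      have hP' : P (fun i j => X i < X j) := hP
      rw [key w hw] at hP'
      exact Set.mem_biUnion (Finset.mem_coe.2 (Finset.mem_filter.2 ⟨Finset.mem_univ w, hP'⟩)) hw
    · intro hU
      obtain ⟨w', hw', hX'⟩ := Set.mem_iUnion₂.1 hU
      have hP' := (Finset.mem_filter.1 hw').2
      rw [← key w' hX'] at hP'
      exact hP'
  rw [h, volume_union, volume_cham_one, mul_one_div]

end R556.CP
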