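import Pool.Agent.R556.CP.H2

/-! MP_249059_co: contraction and the limit function. -/

open MeasureTheory Set Function
open scoped ENNReal unitInterval

namespace R556.CP

noncomputable section

open Classical

variable {K : ℕ} {p : ℕ → ℕ}

/-- admissible functions of the state `X 0, ..., X (K-1)` -/
structure Adm (K : ℕ) (G : (ℕ → I) → ℝ≥0∞) : Prop where
  meas : Measurable G
  dep : Dep G (Set.Iio K)

lemma sh_sh (m n : ℕ) (X : ℕ → I) : sh m (sh n X) = sh (m + n) X := by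
  funext i
  show X (i + m + n) = X (i + (m + n))
  congr 1
  omega

lemma sh_zero (X : ℕ → I) : sh 0 X = X := rfl

lemma adm_T {G : (ℕ → I) → ℝ≥0∞} (hG : Adm K G) (m : ℕ) : Adm K (T K p m G) := by
  refine ⟨measurable_LM (measurable_ind_G hG.meas), ?_⟩
  have h1 : Dep (fun X => ind (NoOcc (K + 1) p 0 (K + m) X) * G (sh m X)) (Set.Ico 0 (K + m)) := by
    refine Dep.mul (dep_noOcc _ _ _ _) ((dep_sh hG.dep m).mono fun i hi => ?_)
    have := hi.1
    have := hi.2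
    exact ⟨by omega, by omega⟩
  refine (h1.LM (s := Finset.Ico K (K + m))).mono fun i hi => ?_
  have h1 : i < K + m := hi.1.2
  have h2 : ¬ (K ≤ i ∧ i < K + m) := fun h => hi.2 (by simpa using h)
  show i < K
  omega

lemma adm_one : Adm K (fun _ => 1) := ⟨measurable_const, fun _ _ _ => rfl⟩

lemma T_T (m n : ℕ) {G : (ℕ → I) → ℝ≥0∞} (hG : Measurable G) (X : ℕ → I) :
    T K p (m + n) G X = T K p m (T K p n G) X := by
  have hu : Finset.Ico K (K + (m + n)) = Finset.Ico K (K + m) ∪ Finset.Ico (K + m) (K + n + m) := by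
    ext x; simp only [Finset.mem_union, Finset.mem_Ico]; omega
  have hd : Disjoint (Finset.Ico K (K + m)) (Finset.Ico (K + m) (K + n + m)) := by
    rw [Finset.disjoint_left]; intro x; simp only [Finset.mem_Ico]; omega
  unfold T
  rw [hu, LM_union (measurable_ind_G hG) hd]
  congr 1
  funext Y
  have e1 : (fun X => ind (NoOcc (K + 1) p 0 (K + (m + n)) X) * G (sh (m + n) X)) =
      fun X => ind (NoOcc (K + 1) p 0 (K + m) X) *
        (ind (NoOcc (K + 1) p 0 (K + n) (sh m X)) * G (sh n (sh m X))) := by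
    funext Z
    rw [← mul_assoc, ← ind_and, sh_sh, Nat.add_comm n m]
    congr 1
    refine ind_congr ?_
    rw [noOcc_split 0 (K + m) (K + (m + n)) Z (by omega) (by omega)]
    have : K + m - K = 0 + m := by omega
    rw [this, show K + (m + n) = (K + n) + m by omega, noOcc_sh]
  rw [e1, LM_mul_left]
  · congr 1
    rw [← image_add_Ico, LM_shift (f := fun X => ind (NoOcc (K + 1) p 0 (K + n) X) * G (sh n X))
      (measurable_ind_G hG)]
  · refine (dep_noOcc (K + 1) p 0 (K + m)).mono fun i hi => ?_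
    have := hi.2
    simp only [Set.mem_ofPred_eq, Finset.mem_Ico]
    omega
  · exact (measurable_ind_G (m := n) hG).comp (measurable_sh m)

lemma F_eq_T (N : ℕ) : F K p N = T K p N (fun _ => 1) := by
  funext X
  unfold F T
  simp only [mul_one]

lemma T_F (m N : ℕ) (X : ℕ → I) : T K p m (F K p N) X = F K p (m + N) X := (F_shift m N X).symm

lemma adm_F (N : ℕ) : Adm K (F K p N) := ⟨measurable_F N, dep_F N⟩

lemma LM_le_one {s : Finset ℕ} {f : (ℕ → I) → ℝ≥0∞} (h : ∀ X, f X ≤ 1) (X : ℕ → I) :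
    LM s f X ≤ 1 := by
  refine (LM_mono h X).trans ?_
  rw [LM_of_dep (f := fun _ => 1) (fun _ _ _ => rfl)]

lemma T_le_one {m : ℕ} {G : (ℕ → I) → ℝ≥0∞} (h : ∀ X, G X ≤ 1) (X : ℕ → I) :
    T K p m G X ≤ 1 := by
  unfold T
  refine LM_le_one (fun Y => ?_) X
  calc _ ≤ (1 : ℝ≥0∞) * 1 := by gcongr <;> first | exact ind_le_one _ | exact h _
    _ = 1 := one_mul _

lemma F_le_one (N : ℕ) (X : ℕ → I) : F K p N X ≤ 1 := LM_le_one (fun _ => ind_le_one _) X

/-! ### Phi is monotone and linear -/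

lemma Phi_mono {G H : (ℕ → I) → ℝ≥0∞} (h : ∀ X, G X ≤ H X) : Phi K p G ≤ Phi K p H := by
  unfold Phi PhiAt
  exact LM_mono (fun Y => mul_le_mul_right (h _) _) _

lemma Phi_add {G H : (ℕ → I) → ℝ≥0∞} (hG : Measurable G) :
    Phi K p (fun X => G X + H X) = Phi K p G + Phi K p H := by
  unfold Phi PhiAt
  rw [← LM_add (measurable_ind_G hG)]
  congr 1
  funext Y
  ring

lemma Phi_const_mul {G : (ℕ → I) → ℝ≥0∞} (c : ℝ≥0∞) (hG : Measurable G) :
    Phi K p (fun X => c * G X) = c * Phi K p G := by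
  unfold Phi PhiAt
  rw [← LM_const_mul c (measurable_ind_G hG)]
  congr 1
  funext Y
  ring

lemma Phi_le_one {G : (ℕ → I) → ℝ≥0∞} (h : ∀ X, G X ≤ 1) : Phi K p G ≤ 1 := by
  unfold Phi PhiAt
  refine LM_le_one (fun Y => ?_) _
  calc _ ≤ (1 : ℝ≥0∞) * 1 := by gcongr <;> first | exact ind_le_one _ | exact h _
    _ = 1 := one_mul _

/-- the lower Harnack bound as a hypothesis -/
def Harn (K : ℕ) (p : ℕ → ℕ) (κ : ℝ≥0∞) : Prop :=
  ∀ G : (ℕ → I) → ℝ≥0∞, Adm K G → ∀ X, κ * (F K p 2 X * Phi K p G) ≤ T K p (3 * K + 6) G X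

lemma contract {κ θ : ℝ≥0∞} (hH : Harn K p κ) (hκθ : κ + θ = 1) {A B : (ℕ → I) → ℝ≥0∞}
    (hA : Adm K A) (hB : Adm K B) {a d : ℝ≥0∞} (ha : a ≠ ∞) (hd : d ≠ ∞)
    (h1 : ∀ X, a * B X ≤ A X) (h2 : ∀ X, A X ≤ (a + d) * B X) (hBf : ∀ X, B X ≠ ∞)
    (hΦ : Phi K p B ≠ 0) (hΦ' : Phi K p B ≠ ∞) :
    ∃ a', a ≤ a' ∧ a' + θ * d ≤ a + d ∧ (∀ X, a' * T K p (3 * K + 6) B X ≤ T K p (3 * K + 6) A X) ∧
      ∀ X, T K p (3 * K + 6) A X ≤ (a' + θ * d) * T K p (3 * K + 6) B X := by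
  set G : (ℕ → I) → ℝ≥0∞ := fun X => A X - a * B X with hGdef
  set H : (ℕ → I) → ℝ≥0∞ := fun X => (a + d) * B X - A X with hHdef
  have hG : Adm K G := ⟨hA.meas.sub (hB.meas.const_mul a), fun X Y h => by
    simp only [hGdef, hA.dep X Y h, hB.dep X Y h]⟩
  have hHa : Adm K H := ⟨(hB.meas.const_mul _).sub hA.meas, fun X Y h => by
    simp only [hHdef, hA.dep X Y h, hB.dep X Y h]⟩
  have eG : ∀ X, A X = a * B X + G X := fun X => (add_tsub_cancel_of_le (h1 X)).symm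
  have eH : ∀ X, (a + d) * B X = A X + H X := fun X => (add_tsub_cancel_of_le (h2 X)).symm
  have eGH : ∀ X, G X + H X = d * B X := by
    intro X
    have h3 : a * B X + (G X + H X) = a * B X + d * B X := by
      rw [← add_assoc, ← eG, ← eH, add_mul]
    exact (ENNReal.add_right_inj (ENNReal.mul_ne_top ha (hBf X))).1 h3
  have ePhi : Phi K p G + Phi K p H = d * Phi K p B := by
    rw [← Phi_add hG.meas, ← Phi_const_mul d hB.meas]
    congr 1
    funext X
    exact eGH X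
  set x := κ * (Phi K p G / Phi K p B) with hx
  set y := κ * (Phi K p H / Phi K p B) with hy
  have hxy : x + y = κ * d := by
    rw [hx, hy, ← mul_add, ← ENNReal.add_div, ePhi, ENNReal.mul_div_cancel_right hΦ hΦ']
  have hxB : x * Phi K p B = κ * Phi K p G := by
    rw [hx, mul_assoc, ENNReal.div_mul_cancel hΦ hΦ']
  have hyB : y * Phi K p B = κ * Phi K p H := by
    rw [hy, mul_assoc, ENNReal.div_mul_cancel hΦ hΦ']
  have hTB : ∀ X, T K p (3 * K + 6) B X ≤ F K p 2 X * Phi K p B := T_le hB.meas hB.dep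
  have hTBf : ∀ X, T K p (3 * K + 6) B X ≠ ∞ := fun X =>
    ((hTB X).trans_lt (ENNReal.mul_lt_top ((F_le_one 2 X).trans_lt ENNReal.one_lt_top)
      hΦ'.lt_top)).ne
  have kκ : κ ≠ ∞ := fun h => by rw [h] at hκθ; simp at hκθ
  have hyf : y ≠ ∞ := by
    have : y ≤ κ * d := by rw [← hxy]; exact le_add_self
    exact (this.trans_lt (ENNReal.mul_lt_top kκ.lt_top hd.lt_top)).ne
  have hGl : ∀ X, x * T K p (3 * K + 6) B X ≤ T K p (3 * K + 6) G X := by
    intro X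
    calc x * T K p (3 * K + 6) B X ≤ x * (F K p 2 X * Phi K p B) := by gcongr; exact hTB X
      _ = F K p 2 X * (x * Phi K p B) := by ring
      _ = κ * (F K p 2 X * Phi K p G) := by rw [hxB]; ring
      _ ≤ _ := hH G hG X
  have hHl : ∀ X, y * T K p (3 * K + 6) B X ≤ T K p (3 * K + 6) H X := by
    intro X
    calc y * T K p (3 * K + 6) B X ≤ y * (F K p 2 X * Phi K p B) := by gcongr; exact hTB X
      _ = F K p 2 X * (y * Phi K p B) := by ring
      _ = κ * (F K p 2 X * Phi K p H) := by rw [hyB]; ring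
      _ ≤ _ := hH H hHa X
  have TA : ∀ X, T K p (3 * K + 6) A X =
      a * T K p (3 * K + 6) B X + T K p (3 * K + 6) G X := by
    intro X
    rw [← T_const_mul a hB.meas, ← T_add (hB.meas.const_mul a)]
    congr 1
    funext Y
    exact eG Y
  have TH : ∀ X, (a + d) * T K p (3 * K + 6) B X =
      T K p (3 * K + 6) A X + T K p (3 * K + 6) H X := by
    intro X
    rw [← T_const_mul (a + d) hB.meas, ← T_add hA.meas]
    congr 1
    funext Y
    exact eH Y
  have hsum : a + x + θ * d + y = a + d := by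
    calc a + x + θ * d + y = a + (x + y) + θ * d := by ring
      _ = a + (κ + θ) * d := by rw [hxy]; ring
      _ = a + d := by rw [hκθ, one_mul]
  refine ⟨a + x, le_self_add, ?_, ?_, ?_⟩
  · rw [← hsum]; exact le_self_add
  · intro X
    rw [TA X, add_mul]
    gcongr
    exact hGl X
  · intro X
    have h3 : T K p (3 * K + 6) A X + y * T K p (3 * K + 6) B X ≤
        (a + x + θ * d) * T K p (3 * K + 6) B X + y * T K p (3 * K + 6) B X := by
      rw [← add_mul, hsum, TH X]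
      gcongr
      exact hHl X
    exact (ENNReal.add_le_add_iff_right (ENNReal.mul_ne_top hyf (hTBf X))).1 h3

/-- iterated contraction -/
lemma contract_iter {κ θ : ℝ≥0∞} (hH : Harn K p κ) (hκθ : κ + θ = 1) {A B : (ℕ → I) → ℝ≥0∞}
    (hA : Adm K A) (hB : Adm K B) {a d : ℝ≥0∞} (ha : a ≠ ∞) (hd : d ≠ ∞)
    (h1 : ∀ X, a * B X ≤ A X) (h2 : ∀ X, A X ≤ (a + d) * B X) (hBf : ∀ X, B X ≤ 1)
    (hΦ : ∀ N, Phi K p (T K p N B) ≠ 0) :
    ∃ s : ℕ → ℝ≥0∞, s 0 = a ∧ (∀ j, s j ≤ s (j + 1)) ∧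
      (∀ j, s (j + 1) + θ ^ (j + 1) * d ≤ s j + θ ^ j * d) ∧
      ∀ j, (∀ X, s j * T K p (j * (3 * K + 6)) B X ≤ T K p (j * (3 * K + 6)) A X) ∧
        ∀ X, T K p (j * (3 * K + 6)) A X ≤ (s j + θ ^ j * d) * T K p (j * (3 * K + 6)) B X := by
  have hθ : θ ≤ 1 := by rw [← hκθ]; exact le_add_self
  have hθt : ∀ j, θ ^ j ≤ 1 := fun j => pow_le_one₀ (zero_le) hθ
  have step : ∀ (j : ℕ) (b : ℝ≥0∞), (b ≠ ∞ ∧
      (∀ X, b * T K p (j * (3 * K + 6)) B X ≤ T K p (j * (3 * K + 6)) A X) ∧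
        ∀ X, T K p (j * (3 * K + 6)) A X ≤ (b + θ ^ j * d) * T K p (j * (3 * K + 6)) B X) →
      ∃ b', b ≤ b' ∧ b' + θ ^ (j + 1) * d ≤ b + θ ^ j * d ∧ (b' ≠ ∞ ∧
        (∀ X, b' * T K p ((j + 1) * (3 * K + 6)) B X ≤ T K p ((j + 1) * (3 * K + 6)) A X) ∧
        ∀ X, T K p ((j + 1) * (3 * K + 6)) A X ≤
          (b' + θ ^ (j + 1) * d) * T K p ((j + 1) * (3 * K + 6)) B X) := by
    rintro j b ⟨hb, l1, l2⟩
    have hjf : θ ^ j * d ≠ ∞ := ENNReal.mul_ne_top ((hθt j).trans_lt ENNReal.one_lt_top).ne hd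
    have hTf : ∀ X, T K p (j * (3 * K + 6)) B X ≤ 1 := T_le_one hBf
    obtain ⟨b', c1, c2, c3, c4⟩ := contract hH hκθ (adm_T hA _) (adm_T hB _) hb hjf l1 l2
      (fun X => ((hTf X).trans_lt ENNReal.one_lt_top).ne) (hΦ _)
      ((Phi_le_one hTf).trans_lt ENNReal.one_lt_top).ne
    have hpow : θ * (θ ^ j * d) = θ ^ (j + 1) * d := by ring
    rw [hpow] at c2 c4
    have hb' : b' ≠ ∞ := by
      have : b' ≤ b + θ ^ j * d := le_self_add.trans c2
      exact (this.trans_lt (ENNReal.add_lt_top.2 ⟨hb.lt_top, hjf.lt_top⟩)).ne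
    have e : (j + 1) * (3 * K + 6) = (3 * K + 6) + j * (3 * K + 6) := by ring
    refine ⟨b', c1, c2, hb', ?_, ?_⟩
    · intro X
      rw [e, T_T _ _ hB.meas, T_T _ _ hA.meas]
      exact c3 X
    · intro X
      rw [e, T_T _ _ hB.meas, T_T _ _ hA.meas]
      exact c4 X
  choose! f hf1 hf2 hf3 using step
  set s : ℕ → ℝ≥0∞ := fun j => Nat.rec a (fun j b => f j b) j with hs
  have hT0 : ∀ G : (ℕ → I) → ℝ≥0∞, ∀ X, T K p (0 * (3 * K + 6)) G X = G X := by
    intro G X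
    rw [zero_mul]
    unfold T
    rw [show Finset.Ico K (K + 0) = ∅ by simp]
    show lmarginal _ _ _ _ = _
    rw [lmarginal_empty, ind_true, one_mul, sh_zero]
    intro i h1 h2 h3
    omega
  have inv : ∀ j, (s j ≠ ∞ ∧
      (∀ X, s j * T K p (j * (3 * K + 6)) B X ≤ T K p (j * (3 * K + 6)) A X) ∧
        ∀ X, T K p (j * (3 * K + 6)) A X ≤ (s j + θ ^ j * d) * T K p (j * (3 * K + 6)) B X) := by
    intro j
    induction j with
    | zero =>
      refine ⟨ha, fun X => ?_, fun X => ?_⟩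
      · rw [hT0, hT0]; exact h1 X
      · rw [hT0, hT0, pow_zero, one_mul]; exact h2 X
    | succ j ih => exact hf3 j (s j) ih
  exact ⟨s, rfl, fun j => hf1 j (s j) (inv j), fun j => hf2 j (s j) (inv j),
    fun j => ⟨(inv j).2.1, (inv j).2.2⟩⟩

/-- multiplicative closeness -/
def Cl (e : ℝ) (x y : ℝ≥0∞) : Prop :=
  x ≤ ENNReal.ofReal (Real.exp e) * y ∧ y ≤ ENNReal.ofReal (Real.exp e) * x

lemma Cl.symm {e : ℝ} {x y : ℝ≥0∞} (h : Cl e x y) : Cl e y x := ⟨h.2, h.1⟩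

lemma Cl.trans {e f : ℝ} {x y z : ℝ≥0∞} (h : Cl e x y) (h' : Cl f y z) : Cl (e + f) x z := by
  constructor
  · rw [Real.exp_add, ENNReal.ofReal_mul (Real.exp_pos _).le, mul_assoc]
    exact h.1.trans (by gcongr; exact h'.1)
  · rw [add_comm, Real.exp_add, ENNReal.ofReal_mul (Real.exp_pos _).le, mul_assoc]
    exact h'.2.trans (by gcongr; exact h.2)

lemma Cl.mono {e f : ℝ} {x y : ℝ≥0∞} (h : Cl e x y) (hef : e ≤ f) : Cl f x y := by
  have : ENNReal.ofReal (Real.exp e) ≤ ENNReal.ofReal (Real.exp f) :=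
    ENNReal.ofReal_le_ofReal (Real.exp_le_exp.2 hef)
  exact ⟨h.1.trans (by gcongr), h.2.trans (by gcongr)⟩

lemma Cl.mul_left {e : ℝ} {x y : ℝ≥0∞} (h : Cl e x y) (c : ℝ≥0∞) : Cl e (c * x) (c * y) := by
  constructor
  · rw [mul_left_comm]; gcongr; exact h.1
  · rw [mul_left_comm]; gcongr; exact h.2

lemma Cl.refl (x : ℝ≥0∞) : Cl 0 x x := by
  constructor <;> simp

lemma Cl.LM {e : ℝ} {s : Finset ℕ} {f g : (ℕ → I) → ℝ≥0∞} (hf : Measurable f) (hg : Measurable g)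
    (h : ∀ X, Cl e (f X) (g X)) (X : ℕ → I) : Cl e (LM s f X) (LM s g X) := by
  constructor
  · rw [← LM_const_mul _ hg]; exact LM_mono (fun Y => (h Y).1) X
  · rw [← LM_const_mul _ hf]; exact LM_mono (fun Y => (h Y).2) X

lemma Cl.T {e : ℝ} {m : ℕ} {f g : (ℕ → I) → ℝ≥0∞} (hf : Measurable f) (hg : Measurable g)
    (h : ∀ X, Cl e (f X) (g X)) (X : ℕ → I) : Cl e (T K p m f X) (T K p m g X) :=
  Cl.LM (measurable_ind_G hf) (measurable_ind_G hg) (fun _ => (h _).mul_left _) X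

end

end R556.CP
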