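import Pool.Agent.R556.CP.D

/-! MP_249059_co: the limit function. -/

open MeasureTheory Set Function
open scoped ENNReal unitInterval

namespace R556.CP

noncomputable section

open Classical

variable {K : ℕ} {p : ℕ → ℕ}

lemma real_rate {t : ℝ} (ht0 : 0 ≤ t) (ht : t < 1) {M : ℕ} (hM : 1 ≤ M) :
    ∃ D ρ : ℝ, 0 ≤ D ∧ 0 < ρ ∧ ρ < 1 ∧ ∀ j N : ℕ, N ≤ (j + 2) * M → t ^ j ≤ D * ρ ^ N := by
  set r : ℝ := max t (1 / 2) with hr
  have hr0 : 0 < r := lt_of_lt_of_le (by norm_num) (le_max_right _ _)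
  have hr1 : r < 1 := max_lt ht (by norm_num)
  have hM0 : (M : ℝ) ≠ 0 := by positivity
  set ρ : ℝ := r ^ ((M : ℝ)⁻¹) with hρ
  have hρM : ρ ^ M = r := by
    rw [hρ, ← Real.rpow_natCast, ← Real.rpow_mul hr0.le, inv_mul_cancel₀ hM0, Real.rpow_one]
  have hρ0 : 0 < ρ := Real.rpow_pos_of_pos hr0 _
  have hρ1 : ρ < 1 := Real.rpow_lt_one hr0.le hr1 (by positivity)
  refine ⟨(r ^ 2)⁻¹, ρ, by positivity, hρ0, hρ1, fun j N hN => ?_⟩
  have h1 : t ^ j ≤ r ^ j := pow_le_pow_left₀ ht0 (le_max_left _ _) j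
  have h2 : r ^ (j + 2) = ρ ^ ((j + 2) * M) := by
    rw [mul_comm (j + 2) M, pow_mul, hρM]
  have h3 : ρ ^ ((j + 2) * M) ≤ ρ ^ N := pow_le_pow_of_le_one hρ0.le hρ1.le hN
  have h4 : r ^ j = (r ^ 2)⁻¹ * r ^ (j + 2) := by
    rw [pow_add]; field_simp
  rw [h4, h2] at h1
  refine h1.trans ?_
  gcongr

lemma T_N_le {G H : (ℕ → I) → ℝ≥0∞} (hG : Adm K G) (hH : Adm K H) {c : ℝ≥0∞} {n : ℕ}
    (h : ∀ X, T K p n G X ≤ c * T K p n H X) {N : ℕ} (hN : n ≤ N) (X : ℕ → I) :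
    T K p N G X ≤ c * T K p N H X := by
  obtain ⟨m, rfl⟩ : ∃ m, N = m + n := ⟨N - n, by omega⟩
  rw [T_T m n hG.meas, T_T m n hH.meas, ← T_const_mul c (adm_T hH n).meas]
  exact T_mono h X

lemma T_N_ge {G H : (ℕ → I) → ℝ≥0∞} (hG : Adm K G) (hH : Adm K H) {c : ℝ≥0∞} {n : ℕ}
    (h : ∀ X, c * T K p n H X ≤ T K p n G X) {N : ℕ} (hN : n ≤ N) (X : ℕ → I) :
    c * T K p N H X ≤ T K p N G X := by
  obtain ⟨m, rfl⟩ : ∃ m, N = m + n := ⟨N - n, by omega⟩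
  rw [T_T m n hG.meas, T_T m n hH.meas, ← T_const_mul c (adm_T hH n).meas]
  exact T_mono h X

theorem P2 {κ θ : ℝ≥0∞} (hκ : κ ≠ 0) (hH : Harn K p κ) (hκθ : κ + θ = 1)
    (hpos : ∀ N, Phi K p (F K p N) ≠ 0) :
    ∃ D ρ : ℝ, 0 ≤ D ∧ 0 < ρ ∧ ρ < 1 ∧ ∀ G : (ℕ → I) → ℝ≥0∞, Adm K G →
      Phi K p G ≠ 0 → Phi K p G ≠ ∞ → ∃ l : ℝ≥0∞, l ≠ 0 ∧ l ≠ ∞ ∧
        ∀ N, 3 * K + 6 ≤ N → ∀ X, Cl (D * ρ ^ N) (T K p N G X) (l * F K p N X) := by
  have hκ1 : κ ≤ 1 := by rw [← hκθ]; exact le_self_add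
  have hκt : κ ≠ ∞ := (hκ1.trans_lt ENNReal.one_lt_top).ne
  have hθ1 : θ ≤ 1 := by rw [← hκθ]; exact le_add_self
  have hθt : θ ≠ ∞ := (hθ1.trans_lt ENNReal.one_lt_top).ne
  have hθlt : θ < 1 := by
    refine lt_of_le_of_ne hθ1 fun h => hκ ?_
    rw [h] at hκθ
    exact (ENNReal.add_left_inj ENNReal.one_ne_top).1 (hκθ.trans (zero_add 1).symm)
  have htr : θ.toReal < 1 := by
    have := (ENNReal.toReal_lt_toReal hθt ENNReal.one_ne_top).2 hθlt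
    simpa using this
  obtain ⟨D, ρ, hD, hρ0, hρ1, hrate⟩ := real_rate (M := 3 * K + 6) ENNReal.toReal_nonneg htr
    (by omega)
  set c : ℝ≥0∞ := κ⁻¹ * κ⁻¹ with hc
  have hct : c ≠ ∞ := ENNReal.mul_ne_top (ENNReal.inv_ne_top.2 hκ) (ENNReal.inv_ne_top.2 hκ)
  refine ⟨c.toReal * D, ρ, by positivity, hρ0, hρ1, fun G hG hg0 hgt => ?_⟩
  set g := Phi K p G with hg
  set φ := Phi K p (F K p 0) with hφ
  have hφ0 : φ ≠ 0 := hpos 0
  have hφt : φ ≠ ∞ := ((Phi_le_one (F_le_one 0)).trans_lt ENNReal.one_lt_top).ne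
  set a : ℝ≥0∞ := κ * (g / φ) with ha
  have ha0 : a ≠ 0 := mul_ne_zero hκ (ENNReal.div_ne_zero.2 ⟨hg0, hφt⟩)
  have hat : a ≠ ∞ := ENNReal.mul_ne_top hκt (ENNReal.div_ne_top hgt hφ0)
  have haφ : a * φ = κ * g := by
    rw [ha, mul_assoc, ENNReal.div_mul_cancel hφ0 hφt]
  have hcκ : c * a * (κ * φ) = g := by
    calc c * a * (κ * φ) = (κ⁻¹ * κ) * κ⁻¹ * (a * φ) := by rw [hc]; ring
      _ = κ⁻¹ * κ * (κ⁻¹ * κ) * g := by rw [haφ]; ring
      _ = g := by rw [ENNReal.inv_mul_cancel hκ hκt]; ring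
  have hF0 : Adm K (F K p 0) := adm_F 0
  have eFM : ∀ X, T K p (3 * K + 6) (F K p 0) X = F K p (3 * K + 6) X := fun X => by
    rw [T_F]
  have h1 : ∀ X, a * F K p (3 * K + 6) X ≤ T K p (3 * K + 6) G X := by
    intro X
    calc a * F K p (3 * K + 6) X = a * T K p (3 * K + 6) (F K p 0) X := by rw [eFM]
      _ ≤ a * (F K p 2 X * φ) := by gcongr; exact T_le hF0.meas hF0.dep X
      _ = F K p 2 X * (a * φ) := by ring
      _ = κ * (F K p 2 X * g) := by rw [haφ]; ring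
      _ ≤ _ := hH G hG X
  have h2 : ∀ X, T K p (3 * K + 6) G X ≤ (a + c * a) * F K p (3 * K + 6) X := by
    intro X
    calc T K p (3 * K + 6) G X ≤ F K p 2 X * g := T_le hG.meas hG.dep X
      _ = c * a * (κ * (F K p 2 X * φ)) := by
        calc F K p 2 X * g = F K p 2 X * (c * a * (κ * φ)) := by rw [hcκ]
          _ = _ := by ring
      _ ≤ c * a * F K p (3 * K + 6) X := by
        gcongr
        rw [← eFM]
        exact hH _ hF0 X
      _ ≤ _ := by gcongr; exact le_add_self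
  have hPh : ∀ N, Phi K p (T K p N (F K p (3 * K + 6))) ≠ 0 := by
    intro N
    have : T K p N (F K p (3 * K + 6)) = F K p (N + (3 * K + 6)) := by
      funext X; exact T_F _ _ _
    rw [this]
    exact hpos _
  obtain ⟨s, s0, smono, uanti, hs⟩ := contract_iter hH hκθ (adm_T hG (3 * K + 6))
    (adm_F (3 * K + 6)) hat (ENNReal.mul_ne_top hct hat) h1 h2 (F_le_one _) hPh
  have smono' : Monotone s := monotone_nat_of_le_succ smono
  have uanti' : Antitone (fun j => s j + θ ^ j * (c * a)) := antitone_nat_of_succ_le uanti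
  set l : ℝ≥0∞ := ⨆ j, s j with hl
  have sl : ∀ j, s j ≤ l := fun j => le_iSup s j
  have as : ∀ j, a ≤ s j := fun j => by rw [← s0]; exact smono' (Nat.zero_le j)
  have lu : ∀ j, l ≤ s j + θ ^ j * (c * a) := by
    intro j
    refine iSup_le fun i => ?_
    calc s i ≤ s (max i j) := smono' (le_max_left _ _)
      _ ≤ s (max i j) + θ ^ (max i j) * (c * a) := le_self_add
      _ ≤ _ := uanti' (le_max_right i j)
  have hl0 : l ≠ 0 := fun h => ha0 (le_antisymm (((as 0).trans (sl 0)).trans h.le) zero_le)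
  have hlt : l ≠ ∞ := by
    have := lu 0
    rw [s0, pow_zero, one_mul] at this
    exact (this.trans_lt (ENNReal.add_lt_top.2
      ⟨hat.lt_top, (ENNReal.mul_ne_top hct hat).lt_top⟩)).ne
  refine ⟨l, hl0, hlt, fun N hN X => ?_⟩
  obtain ⟨j, hj⟩ : ∃ j, N / (3 * K + 6) = j + 1 := by
    refine ⟨N / (3 * K + 6) - 1, ?_⟩
    have : 1 ≤ N / (3 * K + 6) := (Nat.one_le_div_iff (by omega)).2 hN
    omega
  have hj1 : (j + 1) * (3 * K + 6) ≤ N := by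
    rw [← hj]; exact Nat.div_mul_le_self _ _
  have hj2 : N ≤ (j + 2) * (3 * K + 6) := by
    have := Nat.div_add_mod N (3 * K + 6)
    have h3 := Nat.mod_lt N (show 0 < 3 * K + 6 by omega)
    rw [hj] at this
    nlinarith
  have lo : ∀ X, s j * F K p N X ≤ T K p N G X := by
    intro X
    have e : ∀ X, s j * T K p ((j + 1) * (3 * K + 6)) (F K p 0) X ≤
        T K p ((j + 1) * (3 * K + 6)) G X := by
      intro X
      have := (hs j).1 X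
      rw [T_F, ← T_T _ _ hG.meas, show j * (3 * K + 6) + (3 * K + 6) = (j + 1) * (3 * K + 6) by ring]
        at this
      rw [T_F, add_zero]
      exact this
    have := T_N_ge hG hF0 e hj1 X
    rwa [T_F, add_zero] at this
  have hi : ∀ X, T K p N G X ≤ (s j + θ ^ j * (c * a)) * F K p N X := by
    intro X
    have e : ∀ X, T K p ((j + 1) * (3 * K + 6)) G X ≤
        (s j + θ ^ j * (c * a)) * T K p ((j + 1) * (3 * K + 6)) (F K p 0) X := by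
      intro X
      have := (hs j).2 X
      rw [T_F, ← T_T _ _ hG.meas, show j * (3 * K + 6) + (3 * K + 6) = (j + 1) * (3 * K + 6) by ring]
        at this
      rw [T_F, add_zero]
      exact this
    have := T_N_le hG hF0 e hj1 X
    rwa [T_F, add_zero] at this
  have hE : 1 + c * θ ^ j ≤ ENNReal.ofReal (Real.exp (c.toReal * D * ρ ^ N)) := by
    have e1 : 1 + c * θ ^ j = ENNReal.ofReal (1 + c.toReal * θ.toReal ^ j) := by
      rw [ENNReal.ofReal_add zero_le_one (by positivity), ENNReal.ofReal_one,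
        ENNReal.ofReal_mul ENNReal.toReal_nonneg, ENNReal.ofReal_pow ENNReal.toReal_nonneg,
        ENNReal.ofReal_toReal hct, ENNReal.ofReal_toReal hθt]
    rw [e1]
    refine ENNReal.ofReal_le_ofReal ?_
    have h3 := hrate j N hj2
    have h4 : c.toReal * θ.toReal ^ j ≤ c.toReal * D * ρ ^ N := by
      rw [mul_assoc]
      exact mul_le_mul_of_nonneg_left h3 ENNReal.toReal_nonneg
    have h5 := Real.add_one_le_exp (c.toReal * D * ρ ^ N)
    linarith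
  have b1 : s j + θ ^ j * (c * a) ≤ (1 + c * θ ^ j) * s j := by
    calc s j + θ ^ j * (c * a) ≤ s j + θ ^ j * (c * s j) := by gcongr; exact as j
      _ = _ := by ring
  constructor
  · calc T K p N G X ≤ (s j + θ ^ j * (c * a)) * F K p N X := hi X
      _ ≤ ((1 + c * θ ^ j) * s j) * F K p N X := by gcongr
      _ ≤ (ENNReal.ofReal (Real.exp (c.toReal * D * ρ ^ N)) * l) * F K p N X := by
        gcongr; exact sl j
      _ = _ := by ring
  · calc l * F K p N X ≤ ((1 + c * θ ^ j) * s j) * F K p N X := by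
          gcongr; exact (lu j).trans b1
      _ = (1 + c * θ ^ j) * (s j * F K p N X) := by ring
      _ ≤ _ := by gcongr; exact lo X

lemma Phi_F_ne_zero (hpos : ∀ N, ∃ X, F K p N X ≠ 0) (N : ℕ) : Phi K p (F K p N) ≠ 0 := by
  intro h
  obtain ⟨X, hX⟩ := hpos (3 * K + 6 + N)
  refine hX (le_antisymm ?_ zero_le)
  have := T_le (p := p) (adm_F (K := K) (p := p) N).meas (adm_F N).dep X
  rwa [T_F, h, mul_zero] at this

theorem asym_of_harn {κ θ : ℝ≥0∞} (hκ : κ ≠ 0) (hH : Harn K p κ) (hκθ : κ + θ = 1)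
    (hpos : ∀ N, ∃ X, F K p N X ≠ 0) :
    ∃ (D ρ : ℝ) (lam : ℝ≥0∞) (ψ : (ℕ → I) → ℝ≥0∞), 0 ≤ D ∧ 0 < ρ ∧ ρ < 1 ∧ lam ≠ 0 ∧ lam ≠ ∞ ∧
      Adm K ψ ∧ (∃ C : ℝ≥0∞, C ≠ ∞ ∧ ∀ X, ψ X ≤ C) ∧
      (∀ N, 3 * K + 6 ≤ N → ∀ X, Cl (D * ρ ^ N) (F K p N X) (lam ^ N * ψ X)) ∧
      ∀ G : (ℕ → I) → ℝ≥0∞, Adm K G → Phi K p G ≠ 0 → Phi K p G ≠ ∞ →
        ∃ l : ℝ≥0∞, l ≠ 0 ∧ l ≠ ∞ ∧ ∀ N, 3 * K + 6 ≤ N → ∀ X,
          Cl (D * ρ ^ N) (T K p N G X) (l * (lam ^ N * ψ X)) := by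
  have hPF := Phi_F_ne_zero hpos
  obtain ⟨D, ρ, hD, hρ0, hρ1, hP2⟩ := P2 hκ hH hκθ hPF
  obtain ⟨lam, hl0, hlt, hlam⟩ := hP2 (F K p 1) (adm_F 1) (hPF 1)
    ((Phi_le_one (F_le_one 1)).trans_lt ENNReal.one_lt_top).ne
  set D' : ℝ := D / (1 - ρ) with hD'
  have h1ρ : 0 < 1 - ρ := by linarith
  have hD'0 : 0 ≤ D' := div_nonneg hD h1ρ.le
  have hDD : D = D' * (1 - ρ) := by rw [hD']; field_simp
  set u : ℕ → (ℕ → I) → ℝ≥0∞ := fun N X => lam⁻¹ ^ N * F K p N X with hu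
  have hinv : lam⁻¹ * lam = 1 := ENNReal.inv_mul_cancel hl0 hlt
  have hlu : ∀ N X, lam ^ N * u N X = F K p N X := by
    intro N X
    simp only [hu]
    rw [← mul_assoc, ← mul_pow, mul_comm lam, hinv, one_pow, one_mul]
  have step : ∀ N, 3 * K + 6 ≤ N → ∀ X, Cl (D * ρ ^ N) (u (N + 1) X) (u N X) := by
    intro N hN X
    have h := (hlam N hN X).mul_left (lam⁻¹ ^ (N + 1))
    rw [T_F] at h
    have e : lam⁻¹ ^ (N + 1) * (lam * F K p N X) = lam⁻¹ ^ N * F K p N X := by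
      rw [pow_succ, mul_assoc, ← mul_assoc lam⁻¹ lam, hinv, one_mul]
    rw [e] at h
    exact h
  have chain : ∀ N, 3 * K + 6 ≤ N → ∀ X i, Cl (D' * (ρ ^ N - ρ ^ (N + i))) (u (N + i) X) (u N X) := by
    intro N hN X i
    induction i with
    | zero => rw [add_zero, sub_self, mul_zero]; exact Cl.refl _
    | succ i ih =>
      have h := (step (N + i) (by omega) X).trans ih
      refine h.mono (le_of_eq ?_)
      rw [hDD]
      ring
  have chain' : ∀ N, 3 * K + 6 ≤ N → ∀ X N', N ≤ N' → Cl (D' * ρ ^ N) (u N' X) (u N X) := by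
    intro N hN X N' hN'
    obtain ⟨i, rfl⟩ : ∃ i, N' = N + i := ⟨N' - N, by omega⟩
    refine (chain N hN X i).mono ?_
    have : 0 ≤ ρ ^ (N + i) := by positivity
    nlinarith
  set ψ : (ℕ → I) → ℝ≥0∞ := fun X => ⨆ n, ⨅ i, ⨅ _ : n ≤ i, u i X with hψ
  have hψm : Measurable ψ := by
    refine Measurable.iSup fun n => Measurable.iInf fun i => Measurable.iInf fun _ => ?_
    exact (measurable_F i).const_mul _
  have hψd : Dep ψ (Set.Iio K) := by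
    intro X Y h
    simp only [hψ, hu]
    have : ∀ i, F K p i X = F K p i Y := fun i => dep_F i X Y h
    simp only [this]
  have hψc : ∀ N, 3 * K + 6 ≤ N → ∀ X, Cl (D' * ρ ^ N) (ψ X) (u N X) := by
    intro N hN X
    constructor
    · refine iSup_le fun n => ?_
      calc (⨅ i, ⨅ _ : n ≤ i, u i X) ≤ u (max n N) X := iInf₂_le _ (le_max_left _ _)
        _ ≤ _ := (chain' N hN X (max n N) (le_max_right _ _)).1
    · have hE0 : ENNReal.ofReal (Real.exp (D' * ρ ^ N)) ≠ 0 := by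
        rw [Ne, ENNReal.ofReal_eq_zero, not_le]; exact Real.exp_pos _
      rw [← ENNReal.inv_mul_le_iff hE0 ENNReal.ofReal_ne_top]
      refine le_trans ?_ (le_iSup (fun n => ⨅ i, ⨅ _ : n ≤ i, u i X) N)
      refine le_iInf₂ fun i hi => ?_
      rw [ENNReal.inv_mul_le_iff hE0 ENNReal.ofReal_ne_top]
      exact (chain' N hN X i hi).2
  have hψF : ∀ N, 3 * K + 6 ≤ N → ∀ X, Cl (D' * ρ ^ N) (F K p N X) (lam ^ N * ψ X) := by
    intro N hN X
    have h := ((hψc N hN X).mul_left (lam ^ N)).symm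
    rwa [hlu] at h
  refine ⟨D + D', ρ, lam, ψ, by positivity, hρ0, hρ1, hl0, hlt, ⟨hψm, hψd⟩, ?_, ?_, ?_⟩
  · refine ⟨ENNReal.ofReal (Real.exp (D' * ρ ^ (3 * K + 6))) * (lam⁻¹ ^ (3 * K + 6) * 1), ?_, ?_⟩
    · refine ENNReal.mul_ne_top ENNReal.ofReal_ne_top ?_
      rw [mul_one]
      exact ENNReal.pow_ne_top (ENNReal.inv_ne_top.2 hl0)
    · intro X
      refine ((hψc (3 * K + 6) le_rfl X).1).trans ?_
      have : u (3 * K + 6) X ≤ lam⁻¹ ^ (3 * K + 6) * 1 := by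
        simp only [hu]
        gcongr
        exact F_le_one _ X
      gcongr
  · intro N hN X
    refine (hψF N hN X).mono ?_
    have : 0 ≤ ρ ^ N := by positivity
    nlinarith
  · intro G hG h0 ht
    obtain ⟨l, hl0', hlt', h⟩ := hP2 G hG h0 ht
    refine ⟨l, hl0', hlt', fun N hN X => ?_⟩
    refine ((h N hN X).trans ((hψF N hN X).mul_left l)).mono (le_of_eq ?_)
    ring

theorem asym (hA : StmtA) (hB : StmtB) (hK : 2 ≤ K) (hp : Set.InjOn p (Set.Iio (K + 1)))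
    (hpos : ∀ N, ∃ X, F K p N X ≠ 0) :
    ∃ (D ρ : ℝ) (lam : ℝ≥0∞) (ψ : (ℕ → I) → ℝ≥0∞), 0 ≤ D ∧ 0 < ρ ∧ ρ < 1 ∧ lam ≠ 0 ∧ lam ≠ ∞ ∧
      Adm K ψ ∧ (∃ C : ℝ≥0∞, C ≠ ∞ ∧ ∀ X, ψ X ≤ C) ∧
      (∀ N, 3 * K + 6 ≤ N → ∀ X, Cl (D * ρ ^ N) (F K p N X) (lam ^ N * ψ X)) ∧
      ∀ G : (ℕ → I) → ℝ≥0∞, Adm K G → Phi K p G ≠ 0 → Phi K p G ≠ ∞ →
        ∃ l : ℝ≥0∞, l ≠ 0 ∧ l ≠ ∞ ∧ ∀ N, 3 * K + 6 ≤ N → ∀ X,
          Cl (D * ρ ^ N) (T K p N G X) (l * (lam ^ N * ψ X)) := by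
  obtain ⟨κ, h0, h1, h⟩ := T_ge hA hB hK hp
  exact asym_of_harn (κ := κ) (θ := 1 - κ) h0.ne' (fun G hG X => h G hG.meas hG.dep X)
    (add_tsub_cancel_of_le h1) hpos

end

end R556.CP
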