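import Mathlib

/-! MP_249059_co: definitions and exact statements of the independent parts (project CP).
See Pool/Agent/R556/notes_MP_249059.md for complete proofs. -/

open MeasureTheory Set
open scoped ENNReal unitInterval

namespace R556.CP

/-- add a new head to a history -/
def cons (x : I) (h : ℕ → I) : ℕ → I
  | 0 => x
  | i + 1 => h i

/-- the first `k` entries of `h` are ordered like `q 0, ..., q (k-1)` -/
def occ (k : ℕ) (q : ℕ → ℕ) (h : ℕ → I) : Prop :=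
  ∀ a < k, ∀ b < k, (h a < h b ↔ q a < q b)

/-- the window `i, ..., i+k-1` of `X` is ordered like `p` -/
def OccAt (k : ℕ) (p : ℕ → ℕ) (X : ℕ → I) (i : ℕ) : Prop :=
  ∀ a < k, ∀ b < k, (X (i + a) < X (i + b) ↔ p a < p b)

/-- the middle region -/
def Mid : Set I := {x : I | (1 / 20 : ℝ) ≤ (x : ℝ) ∧ (x : ℝ) < 19 / 20}

/-- cell `c` of the partition of `[0,1)` into `80 k` cells -/
def Cell (k c : ℕ) : Set I := {x : I | (c : ℝ) ≤ 80 * k * (x : ℝ) ∧ 80 * k * (x : ℝ) < c + 1}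

open Classical in
/-- CP-A: section 2 of the notes (one-dimensional integrals) -/
def StmtA : Prop :=
  ∀ (k : ℕ), 3 ≤ k → ∀ (q : ℕ → ℕ), Set.InjOn q (Set.Iio k) → ∀ h : ℕ → I,
    (∫⁻ x1 : I, (if occ k q (cons x1 h) then 0 else
        ∫⁻ x2 : I, (if occ k q (cons x2 (cons x1 h)) then 0 else (1 : ℝ≥0∞))))
      ≤ 4000 * ∫⁻ x1 : I, (if occ k q (cons x1 h) then 0 else
        ∫⁻ x2 : I, (if occ k q (cons x2 (cons x1 h)) then 0 else
          ∫⁻ x3 : I, (if occ k q (cons x3 (cons x2 (cons x1 h))) ∨ x3 ∉ Mid then 0 else (1 : ℝ≥0∞))))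

/-- CP-B: the filler lemma -/
def StmtB : Prop :=
  ∀ (k : ℕ), 3 ≤ k → ∀ (p : ℕ → ℕ), Set.InjOn p (Set.Iio k) →
    ∃ c : ℕ → ℕ, (∀ j, c j < 80 * k) ∧
      ∀ (X : ℕ → I) (b : ℕ), X b ∈ Mid → X (b + (2 * k - 1)) ∈ Mid →
        (∀ j, 1 ≤ j → j ≤ 2 * k - 2 → X (b + j) ∈ Cell k (c j)) →
        ∀ i, b + 1 ≤ i + k - 1 → i ≤ b + 2 * k - 2 → ¬ OccAt k p X i

open Classical in
/-- CP-C: order patterns of i.i.d. uniform variables are uniformly distributed -/
def StmtC : Prop :=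
  ∀ (n : ℕ) (P : (Fin n → Fin n → Prop) → Prop),
    (volume : Measure (Fin n → I)) {X | P (fun i j => X i < X j)} =
      ((Finset.univ.filter (fun w : Equiv.Perm (Fin n) => P (fun i j => w i < w j))).card : ℝ≥0∞)
        / (n.factorial : ℝ≥0∞)

end R556.CP
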