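import Pool.Agent.R556.CP.D2
import Pool.Agent.R556.CP.C
import Pool.Agent.R435.CP.A
import Pool.Agent.R435.CP.B

/-! MP_249059_co: link between volumes and permutations; asymptotics of counts. -/

open MeasureTheory Set Function
open scoped ENNReal unitInterval

namespace R556.CP

noncomputable section

open Classical

variable {K : ℕ} {p : ℕ → ℕ}

lemma measurableSet_rel (n : ℕ) (P : (Fin n → Fin n → Prop) → Prop) :
    MeasurableSet {X : Fin n → I | P (fun i j => X i < X j)} := by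
  have h : {X : Fin n → I | P (fun i j => X i < X j)} =
      ⋃ r : Fin n → Fin n → Prop, ⋃ _ : P r,
        ⋂ i : Fin n, ⋂ j : Fin n, {X : Fin n → I | X i < X j ↔ r i j} := by
    ext X
    simp only [Set.mem_ofPred_eq, Set.mem_iUnion, Set.mem_iInter, exists_prop]
    constructor
    · intro h
      exact ⟨_, h, fun i j => Iff.rfl⟩
    · rintro ⟨r, hr, h⟩
      have : (fun i j => X i < X j) = r := by
        funext i j
        exact propext (h i j)
      rwa [this]
  rw [h]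
  refine MeasurableSet.iUnion fun r => MeasurableSet.iUnion fun _ => MeasurableSet.iInter fun i =>
    MeasurableSet.iInter fun j => ?_
  have hm : MeasurableSet {X : Fin n → I | X i < X j} :=
    measurableSet_lt (measurable_pi_apply i) (measurable_pi_apply j)
  by_cases hw : r i j
  · simpa [hw] using hm
  · have : {X : Fin n → I | X i < X j ↔ r i j} = {X : Fin n → I | X i < X j}ᶜ := by
      ext X; simp [hw]
    rw [this]; exact hm.compl

lemma LM_range_count (n : ℕ) (P : (Fin n → Fin n → Prop) → Prop) (X0 : ℕ → I) :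
    LM (Finset.range n) (fun X => ind (P (fun i j : Fin n => X i < X j))) X0 =
      ((Finset.univ.filter (fun w : Equiv.Perm (Fin n) => P (fun i j => w i < w j))).card : ℝ≥0∞)
        / (n.factorial : ℝ≥0∞) := by
  rw [← stmtC n P]
  have hr : Finset.range n = (Finset.univ : Finset (Fin n)).image Fin.val := by
    ext x
    simp only [Finset.mem_range, Finset.mem_image, Finset.mem_univ, true_and]
    exact ⟨fun h => ⟨⟨x, h⟩, rfl⟩, fun ⟨y, hy⟩ => hy ▸ y.2⟩
  have hm : Measurable (fun Y : Fin n → I => ind (P (fun i j => Y i < Y j))) := by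
    unfold ind
    exact Measurable.ite (measurableSet_rel n P) measurable_const measurable_const
  rw [hr]
  have := lmarginal_image (μ := fun _ : ℕ => (volume : Measure I)) (e := fun i : Fin n => (i : ℕ))
    Fin.val_injective Finset.univ hm X0
  refine this.trans ?_
  rw [lmarginal_univ]
  show ∫⁻ Y : Fin n → I, ind (P (fun i j => Y i < Y j)) = _
  have e : (fun Y : Fin n → I => ind (P (fun i j => Y i < Y j))) =
      {X : Fin n → I | P (fun i j => X i < X j)}.indicator 1 := by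
    funext Y
    by_cases h : P (fun i j => Y i < Y j) <;> simp [ind, h]
  rw [e, lintegral_indicator_one (measurableSet_rel n P)]

/-- occurrence at position `i` for a relation on `Fin n` -/
def RelOcc (k : ℕ) (p : ℕ → ℕ) (n : ℕ) (R : Fin n → Fin n → Prop) (i : ℕ) : Prop :=
  ∀ a < k, ∀ b < k, ∀ s t : Fin n, (s : ℕ) = i + a → (t : ℕ) = i + b → (R s t ↔ p a < p b)

lemma relOcc_iff {k : ℕ} {n i : ℕ} (hi : i + k ≤ n) (X : ℕ → I) :
    RelOcc k p n (fun s t => X s < X t) i ↔ OccAt k p X i := by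
  constructor
  · intro h a ha b hb
    exact h a ha b hb ⟨i + a, by omega⟩ ⟨i + b, by omega⟩ rfl rfl
  · intro h a ha b hb s t hs ht
    show X s < X t ↔ _
    rw [hs, ht]
    exact h a ha b hb

/-- number of permutations of `Fin n` with exactly the occurrences prescribed by `J` (0-based) -/
def cnt (K : ℕ) (p : ℕ → ℕ) (J : Set ℕ) (n : ℕ) : ℕ :=
  (Finset.univ.filter (fun w : Equiv.Perm (Fin n) =>
    ∀ i, i + (K + 1) ≤ n → (RelOcc (K + 1) p n (fun s t => w s < w t) i ↔ i ∈ J))).card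

/-- the condition on the first `n` positions -/
def Cond (K : ℕ) (p : ℕ → ℕ) (J : Set ℕ) (n : ℕ) (X : ℕ → I) : Prop :=
  ∀ i, i + (K + 1) ≤ n → (OccAt (K + 1) p X i ↔ i ∈ J)

lemma cnt_eq (J : Set ℕ) (n : ℕ) (X0 : ℕ → I) :
    LM (Finset.range n) (fun X => ind (Cond K p J n X)) X0 =
      (cnt K p J n : ℝ≥0∞) / (n.factorial : ℝ≥0∞) := by
  unfold cnt
  rw [← LM_range_count n (fun R => ∀ i, i + (K + 1) ≤ n → (RelOcc (K + 1) p n R i ↔ i ∈ J)) X0]
  congr 1
  funext X
  refine ind_congr ?_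
  unfold Cond
  refine forall₂_congr fun i hi => ?_
  rw [relOcc_iff hi]

lemma measurableSet_cond (J : Set ℕ) (n : ℕ) : MeasurableSet {X | Cond K p J n X} := by
  have : {X | Cond K p J n X} = ⋂ i : ℕ, ⋂ _ : i + (K + 1) ≤ n,
      {X | OccAt (K + 1) p X i ↔ i ∈ J} := by
    ext X; simp [Cond]
  rw [this]
  refine MeasurableSet.iInter fun i => MeasurableSet.iInter fun _ => ?_
  by_cases h : i ∈ J
  · simp only [h, iff_true]; exact measurableSet_occAt _ _ _
  · simp only [h, iff_false]; exact (measurableSet_occAt _ _ _).compl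

lemma dep_cond (J : Set ℕ) (n : ℕ) : Dep (fun X => ind (Cond K p J n X)) (Set.Iio n) := by
  intro X Y h
  refine ind_congr (forall₂_congr fun i hi => ?_)
  rw [occAt_congr (fun a ha => h (i + a) (show i + a < n by omega))]

/-- splitting off the last `N` steps -/
lemma cond_split {J : Set ℕ} {M0 : ℕ} (hM0 : K ≤ M0) (hJ : ∀ i ∈ J, i + (K + 1) ≤ M0) (N : ℕ)
    (X : ℕ → I) : Cond K p J (M0 + N) X ↔
      Cond K p J M0 X ∧ NoOcc (K + 1) p (M0 - K) (M0 + N) X := by
  constructor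
  · intro h
    refine ⟨fun i hi => h i (by omega), fun i h1 h2 h3 => ?_⟩
    have := hJ i ((h i h2).1 h3)
    omega
  · rintro ⟨h1, h2⟩ i hi
    by_cases hc : i + (K + 1) ≤ M0
    · exact h1 i hc
    · exact ⟨fun h => absurd h (h2 i (by omega) hi), fun h => absurd (hJ i h) hc⟩

/-- the initial functional -/
def Lf (K : ℕ) (p : ℕ → ℕ) (J : Set ℕ) (M0 : ℕ) (G : (ℕ → I) → ℝ≥0∞) : ℝ≥0∞ :=
  LM (Finset.range M0) (fun X => ind (Cond K p J M0 X) * G (sh (M0 - K) X)) (fun _ => 0)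

lemma Lf_F {J : Set ℕ} {M0 : ℕ} (hM0 : K ≤ M0) (hJ : ∀ i ∈ J, i + (K + 1) ≤ M0) (N : ℕ) :
    Lf K p J M0 (F K p N) = (cnt K p J (M0 + N) : ℝ≥0∞) / ((M0 + N).factorial : ℝ≥0∞) := by
  rw [← cnt_eq J (M0 + N) (fun _ => 0)]
  have hu : Finset.range (M0 + N) = Finset.range M0 ∪ Finset.Ico M0 (M0 + N) := by
    ext x; simp only [Finset.mem_union, Finset.mem_range, Finset.mem_Ico]; omega
  have hd : Disjoint (Finset.range M0) (Finset.Ico M0 (M0 + N)) := by
    rw [Finset.disjoint_left]; intro x; simp only [Finset.mem_range, Finset.mem_Ico]; omega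
  rw [hu, LM_union (measurable_ind (measurableSet_cond _ _)) hd]
  unfold Lf
  congr 1
  funext Y
  have e1 : (fun X => ind (Cond K p J (M0 + N) X)) =
      fun X => ind (Cond K p J M0 X) * ind (NoOcc (K + 1) p 0 (K + N) (sh (M0 - K) X)) := by
    funext Z
    rw [← ind_and, ← noOcc_sh, Nat.zero_add, show K + N + (M0 - K) = M0 + N by omega]
    exact ind_congr (cond_split hM0 hJ N Z)
  rw [e1, LM_mul_left]
  · congr 1
    have : Finset.Ico M0 (M0 + N) = (Finset.Ico K (K + N)).image (· + (M0 - K)) := by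
      rw [image_add_Ico]; congr 1 <;> omega
    rw [this, LM_shift (f := fun X => ind (NoOcc (K + 1) p 0 (K + N) X))
      (measurable_ind (measurableSet_noOcc _ _ _ _))]
    rfl
  · refine (dep_cond J M0).mono fun i hi => ?_
    have h : i < M0 := hi
    simp only [Set.mem_ofPred_eq, Finset.mem_Ico]
    omega
  · exact (measurable_ind (measurableSet_noOcc _ _ _ _)).comp (measurable_sh _)

/-- there is a permutation without occurrences -/
lemma cnt_empty_pos (hK : 1 ≤ K) (n : ℕ) : cnt K p ∅ n ≠ 0 := by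
  unfold cnt
  rw [Ne, Finset.card_eq_zero, ← Ne, ← Finset.nonempty_iff_ne_empty]
  by_cases h : p 0 < p 1
  · refine ⟨Fin.revPerm, ?_⟩
    simp only [Finset.mem_filter, Finset.mem_univ, true_and, Set.mem_empty_iff_false, iff_false]
    intro i hi hocc
    have := (hocc 0 (by omega) 1 (by omega) ⟨i, by omega⟩ ⟨i + 1, by omega⟩ rfl rfl).2 h
    simp only [Fin.revPerm_apply, Fin.rev_lt_rev, Fin.mk_lt_mk] at this
    omega
  · refine ⟨1, ?_⟩
    simp only [Finset.mem_filter, Finset.mem_univ, true_and, Set.mem_empty_iff_false, iff_false]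
    intro i hi hocc
    refine h ((hocc 0 (by omega) 1 (by omega) ⟨i, by omega⟩ ⟨i + 1, by omega⟩ rfl rfl).1 ?_)
    simp

lemma LM_zero_of_forall {s : Finset ℕ} {f : (ℕ → I) → ℝ≥0∞} (h : ∀ X, f X = 0) (X : ℕ → I) :
    LM s f X = 0 := by
  have : f = fun _ => 0 := by funext Y; exact h Y
  rw [this, LM_of_dep (f := fun _ => 0) (fun _ _ _ => rfl)]

lemma F_pos (hK : 1 ≤ K) (N : ℕ) : ∃ X, F K p N X ≠ 0 := by
  by_contra hcon
  push Not at hcon
  have h := Lf_F (K := K) (p := p) (J := ∅) (M0 := K) le_rfl (by simp) N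
  unfold Lf at h
  rw [LM_zero_of_forall (fun X => by rw [hcon, mul_zero])] at h
  have h2 := cnt_empty_pos (p := p) hK (K + N)
  have h3 := h.symm
  rw [ENNReal.div_eq_zero_iff] at h3
  rcases h3 with h3 | h3
  · exact h2 (by exact_mod_cast h3)
  · exact ENNReal.natCast_ne_top _ h3

lemma Lf_cl {J : Set ℕ} {M0 : ℕ} {e : ℝ} {G H : (ℕ → I) → ℝ≥0∞} (hG : Measurable G)
    (hH : Measurable H) (h : ∀ X, Cl e (G X) (H X)) : Cl e (Lf K p J M0 G) (Lf K p J M0 H) := by
  unfold Lf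
  exact Cl.LM ((measurable_ind (measurableSet_cond _ _)).mul (hG.comp (measurable_sh _)))
    ((measurable_ind (measurableSet_cond _ _)).mul (hH.comp (measurable_sh _)))
    (fun _ => (h _).mul_left _) _

lemma Lf_const_mul {J : Set ℕ} {M0 : ℕ} {G : (ℕ → I) → ℝ≥0∞} (hG : Measurable G) (c : ℝ≥0∞) :
    Lf K p J M0 (fun X => c * G X) = c * Lf K p J M0 G := by
  unfold Lf
  rw [← LM_const_mul (f := fun X => ind (Cond K p J M0 X) * G (sh (M0 - K) X)) c
    ((measurable_ind (measurableSet_cond _ _)).mul (hG.comp (measurable_sh _)))]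
  congr 1
  funext X
  ring

lemma Cl.ne_zero {e : ℝ} {x y : ℝ≥0∞} (h : Cl e x y) (hx : x ≠ 0) : y ≠ 0 := by
  rintro rfl
  refine hx (le_antisymm ?_ zero_le)
  have := h.1
  rwa [mul_zero] at this

/-- main asymptotic statement for counts -/
theorem main_cnt (hK : 2 ≤ K) (hp : Set.InjOn p (Set.Iio (K + 1))) {J : Set ℕ} {M0 : ℕ}
    (hM0 : K ≤ M0) (hJ : ∀ i ∈ J, i + (K + 1) ≤ M0) :
    ∃ (D ρ : ℝ) (c : ℝ≥0∞), 0 ≤ D ∧ 0 < ρ ∧ ρ < 1 ∧ c ≠ ∞ ∧ ∀ N, 3 * K + 6 ≤ N →
      Cl (D * ρ ^ N) (cnt K p J (M0 + N) : ℝ≥0∞) (c * cnt K p ∅ (M0 + N)) := by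
  obtain ⟨D, ρ, lam, ψ, hD, hρ0, hρ1, hl0, hlt, hψ, ⟨C, hC, hψC⟩, hF, -⟩ :=
    asym (p := p) stmtA stmtB hK hp (F_pos (by omega))
  have hfm : ∀ N, Measurable (fun X => lam ^ N * ψ X) := fun N => hψ.meas.const_mul _
  have h1 : ∀ (J : Set ℕ), (∀ i ∈ J, i + (K + 1) ≤ M0) → ∀ N, 3 * K + 6 ≤ N →
      Cl (D * ρ ^ N) ((cnt K p J (M0 + N) : ℝ≥0∞) / ((M0 + N).factorial : ℝ≥0∞))
        (lam ^ N * Lf K p J M0 ψ) := by
    intro J hJ N hN
    rw [← Lf_F hM0 hJ, ← Lf_const_mul hψ.meas]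
    exact Lf_cl (measurable_F N) (hfm N) (hF N hN)
  have hf0 : ∀ n : ℕ, (n.factorial : ℝ≥0∞) ≠ 0 := fun n => by exact_mod_cast n.factorial_ne_zero
  have hft : ∀ n : ℕ, (n.factorial : ℝ≥0∞) ≠ ∞ := fun n => ENNReal.natCast_ne_top _
  have hE : ∀ i ∈ (∅ : Set ℕ), i + (K + 1) ≤ M0 := by simp
  have hψ0 : Lf K p ∅ M0 ψ ≠ 0 := by
    have h2 := h1 ∅ hE (3 * K + 6) le_rfl
    refine right_ne_zero_of_mul (h2.ne_zero (ENNReal.div_ne_zero.2 ⟨?_, hft _⟩))
    exact_mod_cast cnt_empty_pos (by omega) _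
  have hψt : ∀ J : Set ℕ, Lf K p J M0 ψ ≠ ∞ := by
    intro J
    have : Lf K p J M0 ψ ≤ C := by
      unfold Lf
      refine (LM_mono (g := fun _ => C) (fun X => ?_) _).trans ?_
      · calc ind (Cond K p J M0 X) * ψ (sh (M0 - K) X) ≤ 1 * C := by
              gcongr
              · exact ind_le_one _
              · exact hψC _
          _ = C := one_mul C
      · rw [LM_of_dep (f := fun _ => C) (fun _ _ _ => rfl)]
    exact (this.trans_lt hC.lt_top).ne
  refine ⟨D + D, ρ, Lf K p J M0 ψ / Lf K p ∅ M0 ψ, by positivity, hρ0, hρ1,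
    ENNReal.div_ne_top (hψt J) hψ0, fun N hN => ?_⟩
  have a1 := (h1 J hJ N hN).mul_left ((M0 + N).factorial : ℝ≥0∞)
  have a2 := ((h1 ∅ hE N hN).mul_left ((M0 + N).factorial : ℝ≥0∞)).symm
  rw [ENNReal.mul_div_cancel (hf0 _) (hft _)] at a1 a2
  have a3 := a2.mul_left (Lf K p J M0 ψ / Lf K p ∅ M0 ψ)
  have e : Lf K p J M0 ψ / Lf K p ∅ M0 ψ *
      (((M0 + N).factorial : ℝ≥0∞) * (lam ^ N * Lf K p ∅ M0 ψ)) =
      ((M0 + N).factorial : ℝ≥0∞) * (lam ^ N * Lf K p J M0 ψ) := by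
    calc _ = ((M0 + N).factorial : ℝ≥0∞) * (lam ^ N *
        (Lf K p J M0 ψ / Lf K p ∅ M0 ψ * Lf K p ∅ M0 ψ)) := by ring
      _ = _ := by rw [ENNReal.div_mul_cancel hψ0 (hψt ∅)]
  rw [e] at a3
  refine (a1.trans a3).mono (le_of_eq ?_)
  ring

/-- conversion to real numbers -/
lemma Cl.real {e : ℝ} (he : 0 ≤ e) {x y : ℕ} {c : ℝ≥0∞} (hc : c ≠ ∞)
    (h : Cl e (x : ℝ≥0∞) (c * y)) :
    |(x : ℝ) - c.toReal * y| ≤ e * Real.exp e * (c.toReal * y) := by
  have hexp : 1 ≤ Real.exp e := Real.one_le_exp he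
  have hct : (0 : ℝ) ≤ c.toReal := ENNReal.toReal_nonneg
  have hcy : (0 : ℝ) ≤ c.toReal * y := by positivity
  have h1 : (x : ℝ) ≤ Real.exp e * (c.toReal * y) := by
    have := ENNReal.toReal_mono (ENNReal.mul_ne_top ENNReal.ofReal_ne_top
      (ENNReal.mul_ne_top hc (ENNReal.natCast_ne_top _))) h.1
    simpa [ENNReal.toReal_mul, ENNReal.toReal_ofReal (Real.exp_pos e).le] using this
  have h2 : c.toReal * y ≤ Real.exp e * x := by
    have := ENNReal.toReal_mono (ENNReal.mul_ne_top ENNReal.ofReal_ne_top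
      (ENNReal.natCast_ne_top _)) h.2
    simpa [ENNReal.toReal_mul, ENNReal.toReal_ofReal (Real.exp_pos e).le] using this
  have h3 : Real.exp e - 1 ≤ e * Real.exp e := by
    have h4 := Real.add_one_le_exp (-e)
    have h5 : Real.exp (-e) * Real.exp e = 1 := by rw [← Real.exp_add]; simp
    nlinarith [Real.exp_pos e]
  rw [abs_le]
  constructor
  · -- c y - x ≤ e exp e (c y)
    have h6 : c.toReal * y - x ≤ (Real.exp e - 1) * (c.toReal * y) := by
      have h7 : Real.exp e * (c.toReal * y - x) ≤ (Real.exp e - 1) * (c.toReal * y) := by linarith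
      by_cases h8 : 0 ≤ c.toReal * y - x
      · nlinarith
      · push Not at h8
        have : 0 ≤ (Real.exp e - 1) * (c.toReal * y) := mul_nonneg (by linarith) hcy
        linarith
    have h9 : (Real.exp e - 1) * (c.toReal * y) ≤ e * Real.exp e * (c.toReal * y) := by gcongr
    linarith
  · have h9 : (Real.exp e - 1) * (c.toReal * y) ≤ e * Real.exp e * (c.toReal * y) := by gcongr
    linarith

end

end R556.CP
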