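import Pool.Agent.R556.CP.Defs

/-! MP_249059_co: Harnack inequality for the transfer operators. -/

open MeasureTheory Set Function
open scoped ENNReal unitInterval

namespace R556.CP

noncomputable section

open Classical

/-- marginal integrals with respect to the uniform measure -/
abbrev LM (s : Finset ℕ) (f : (ℕ → I) → ℝ≥0∞) : (ℕ → I) → ℝ≥0∞ :=
  lmarginal (fun _ : ℕ => (volume : Measure I)) s f

/-- shift -/
def sh (m : ℕ) (X : ℕ → I) : ℕ → I := fun i => X (i + m)

/-- no occurrence in `[s,t)` -/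
def NoOcc (k : ℕ) (p : ℕ → ℕ) (s t : ℕ) (X : ℕ → I) : Prop :=
  ∀ i, s ≤ i → i + k ≤ t → ¬ OccAt k p X i

/-- indicator of a proposition -/
def ind (P : Prop) : ℝ≥0∞ := if P then 1 else 0

lemma ind_le_one (P : Prop) : ind P ≤ 1 := by unfold ind; split_ifs <;> simp
lemma ind_mono {P Q : Prop} (h : P → Q) : ind P ≤ ind Q := by
  unfold ind; split_ifs <;> simp_all
lemma ind_and (P Q : Prop) : ind (P ∧ Q) = ind P * ind Q := by
  unfold ind; by_cases hP : P <;> by_cases hQ : Q <;> simp [hP, hQ]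
lemma ind_true {P : Prop} (h : P) : ind P = 1 := by simp [ind, h]
lemma ind_false {P : Prop} (h : ¬ P) : ind P = 0 := by simp [ind, h]
lemma ind_congr {P Q : Prop} (h : P ↔ Q) : ind P = ind Q := by simp [ind, h]

lemma measurable_ind {P : (ℕ → I) → Prop} (h : MeasurableSet {X | P X}) :
    Measurable (fun X => ind (P X)) := by
  unfold ind
  exact Measurable.ite h measurable_const measurable_const

lemma measurable_sh (m : ℕ) : Measurable (sh m) := by
  refine measurable_pi_iff.mpr fun i => measurable_pi_apply _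

lemma measurableSet_occAt (k : ℕ) (p : ℕ → ℕ) (i : ℕ) : MeasurableSet {X | OccAt k p X i} := by
  have : {X | OccAt k p X i} = ⋂ a : ℕ, ⋂ _ : a < k, ⋂ b : ℕ, ⋂ _ : b < k,
      {X : ℕ → I | X (i + a) < X (i + b) ↔ p a < p b} := by
    ext X; simp [OccAt]
  rw [this]
  refine MeasurableSet.iInter fun a => MeasurableSet.iInter fun _ => MeasurableSet.iInter fun b =>
    MeasurableSet.iInter fun _ => ?_
  by_cases h : p a < p b
  · simp only [h, iff_true]
    exact measurableSet_lt (measurable_pi_apply _) (measurable_pi_apply _)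
  · simp only [h, iff_false, not_lt]
    exact measurableSet_le (measurable_pi_apply _) (measurable_pi_apply _)

lemma measurableSet_noOcc (k : ℕ) (p : ℕ → ℕ) (s t : ℕ) :
    MeasurableSet {X | NoOcc k p s t X} := by
  have : {X | NoOcc k p s t X} = ⋂ i : ℕ, ⋂ _ : s ≤ i, ⋂ _ : i + k ≤ t,
      {X | OccAt k p X i}ᶜ := by
    ext X; simp [NoOcc]
  rw [this]
  refine MeasurableSet.iInter fun i => MeasurableSet.iInter fun _ => MeasurableSet.iInter fun _ =>
    (measurableSet_occAt k p i).compl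

/-- `f` depends only on the coordinates in `s` -/
def Dep (f : (ℕ → I) → ℝ≥0∞) (s : Set ℕ) : Prop :=
  ∀ X Y : ℕ → I, (∀ i ∈ s, X i = Y i) → f X = f Y

lemma Dep.mono {f : (ℕ → I) → ℝ≥0∞} {s t : Set ℕ} (h : Dep f s) (hst : s ⊆ t) : Dep f t :=
  fun X Y hXY => h X Y fun i hi => hXY i (hst hi)

lemma Dep.mul {f g : (ℕ → I) → ℝ≥0∞} {s : Set ℕ} (hf : Dep f s) (hg : Dep g s) :
    Dep (fun X => f X * g X) s := fun X Y h => by simp only [hf X Y h, hg X Y h]

lemma occAt_congr {k : ℕ} {p : ℕ → ℕ} {X Y : ℕ → I} {i j : ℕ}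
    (h : ∀ a < k, X (i + a) = Y (j + a)) : OccAt k p X i ↔ OccAt k p Y j := by
  unfold OccAt
  refine forall₂_congr fun a ha => forall₂_congr fun b hb => ?_
  rw [h a ha, h b hb]

lemma noOcc_congr {k : ℕ} {p : ℕ → ℕ} {s t : ℕ} {X Y : ℕ → I}
    (h : ∀ i, s ≤ i → i < t → X i = Y i) : NoOcc k p s t X ↔ NoOcc k p s t Y := by
  unfold NoOcc
  refine forall_congr' fun i => forall_congr' fun h1 => forall_congr' fun h2 => not_congr ?_
  exact occAt_congr fun a ha => h _ (by omega) (by omega)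

lemma dep_noOcc (k : ℕ) (p : ℕ → ℕ) (s t : ℕ) :
    Dep (fun X => ind (NoOcc k p s t X)) (Set.Ico s t) := by
  intro X Y h
  exact ind_congr (noOcc_congr fun i h1 h2 => h i ⟨h1, h2⟩)

lemma dep_sh {G : (ℕ → I) → ℝ≥0∞} {K : ℕ} (hG : Dep G (Set.Iio K)) (m : ℕ) :
    Dep (fun X => G (sh m X)) (Set.Ico m (m + K)) := by
  intro X Y h
  refine hG _ _ fun i hi => ?_
  have : i < K := hi
  exact h _ ⟨by omega, by omega⟩

/-! ### marginals -/

lemma updateFinset_notMem' {s : Finset ℕ} (X : ℕ → I) (y : (i : s) → I) {i : ℕ} (hi : i ∉ s) :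
    updateFinset X s y i = X i := by simp [updateFinset, hi]

lemma measurable_updF (s : Finset ℕ) (X : ℕ → I) :
    Measurable (fun y : (i : s) → I => updateFinset X s y) := measurable_updateFinset

lemma LM_mul_left {s : Finset ℕ} {f g : (ℕ → I) → ℝ≥0∞} (hf : Dep f {i | i ∉ s})
    (hg : Measurable g) (X : ℕ → I) :
    LM s (fun X => f X * g X) X = f X * LM s g X := by
  unfold LM lmarginal
  have : ∀ y : (i : s) → I, f (updateFinset X s y) = f X := fun y =>
    hf _ _ fun i hi => updateFinset_notMem' X y hi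
  simp only [this]
  exact lintegral_const_mul _ (hg.comp (measurable_updF s X))

lemma LM_of_dep {s : Finset ℕ} {f : (ℕ → I) → ℝ≥0∞} (hf : Dep f {i | i ∉ s}) (X : ℕ → I) :
    LM s f X = f X := by
  unfold LM lmarginal
  have : ∀ y : (i : s) → I, f (updateFinset X s y) = f X := fun y =>
    hf _ _ fun i hi => updateFinset_notMem' X y hi
  simp only [this]
  simp

lemma LM_const_of_dep {s : Finset ℕ} {f : (ℕ → I) → ℝ≥0∞} (hf : Dep f s) (X Y : ℕ → I) :
    LM s f X = LM s f Y := by
  unfold LM lmarginal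
  have : ∀ y : (i : s) → I, f (updateFinset X s y) = f (updateFinset Y s y) := fun y =>
    hf _ _ fun i hi => by
      have hi' : i ∈ s := hi
      simp [updateFinset, hi']
  simp only [this]

lemma Dep.LM {s : Finset ℕ} {f : (ℕ → I) → ℝ≥0∞} {t : Set ℕ} (hf : Dep f t) :
    Dep (LM s f) (t \ s) := by
  intro X Y h
  unfold R556.CP.LM lmarginal
  have : ∀ y : (i : s) → I, f (updateFinset X s y) = f (updateFinset Y s y) := fun y =>
    hf _ _ fun i hi => by
      by_cases his : i ∈ s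
      · simp [updateFinset, his]
      · simp [updateFinset, his, h i ⟨hi, his⟩]
  simp only [this]

lemma measurable_LM {s : Finset ℕ} {f : (ℕ → I) → ℝ≥0∞} (hf : Measurable f) :
    Measurable (LM s f) := hf.lmarginal _

lemma LM_union {s t : Finset ℕ} {f : (ℕ → I) → ℝ≥0∞} (hf : Measurable f) (h : Disjoint s t)
    (X : ℕ → I) : LM (s ∪ t) f X = LM s (LM t f) X := by
  unfold LM
  rw [lmarginal_union _ _ hf h]

lemma LM_mono {s : Finset ℕ} {f g : (ℕ → I) → ℝ≥0∞} (h : ∀ X, f X ≤ g X) (X : ℕ → I) :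
    LM s f X ≤ LM s g X := lmarginal_mono h X

lemma LM_add {s : Finset ℕ} {f g : (ℕ → I) → ℝ≥0∞} (hf : Measurable f) (X : ℕ → I) :
    LM s (fun X => f X + g X) X = LM s f X + LM s g X := by
  unfold LM lmarginal
  exact lintegral_add_left (hf.comp (measurable_updF s X)) _

lemma LM_const_mul {s : Finset ℕ} {f : (ℕ → I) → ℝ≥0∞} (c : ℝ≥0∞) (hf : Measurable f)
    (X : ℕ → I) : LM s (fun X => c * f X) X = c * LM s f X := by
  unfold LM lmarginal
  exact lintegral_const_mul _ (hf.comp (measurable_updF s X))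

/-- product splitting -/
lemma LM_prod {s t : Finset ℕ} (hst : Disjoint s t) {f g : (ℕ → I) → ℝ≥0∞}
    (hf : Measurable f) (hg : Measurable g)
    (hft : Dep f {i | i ∉ t}) (hgs : Dep g {i | i ∉ s}) (X : ℕ → I) :
    LM (s ∪ t) (fun X => f X * g X) X = LM s f X * LM t g X := by
  rw [LM_union (f := fun X => f X * g X) (hf.mul hg) hst]
  have h1 : LM t (fun X => f X * g X) = fun X => f X * LM t g X := by
    funext Y; exact LM_mul_left hft hg Y
  rw [h1]
  have h2 : (fun X => f X * LM t g X) = fun X => LM t g X * f X := by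
    funext Y; exact mul_comm _ _
  rw [h2, LM_mul_left ((hgs.LM (s := t)).mono (fun i hi => hi.1)) hf, mul_comm]

lemma LM_shift {s : Finset ℕ} {f : (ℕ → I) → ℝ≥0∞} (hf : Measurable f) (m : ℕ) (X : ℕ → I) :
    LM (s.image (· + m)) (fun X => f (sh m X)) X = LM s f (sh m X) := by
  have := lmarginal_image (μ := fun _ : ℕ => (volume : Measure I)) (e := fun i : ℕ => i + m)
    (add_left_injective m) s hf X
  exact this

lemma image_add_Ico (a b m : ℕ) :
    (Finset.Ico a b).image (· + m) = Finset.Ico (a + m) (b + m) := by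
  ext x
  simp only [Finset.mem_image, Finset.mem_Ico]
  constructor
  · rintro ⟨y, hy, rfl⟩; omega
  · intro h; exact ⟨x - m, by omega, by omega⟩


/-! ### the functions `F` and the operators `T` -/

variable {K : ℕ} {p : ℕ → ℕ}

/-- probability of no occurrence in `N` more steps (window length `K+1`) -/
def F (K : ℕ) (p : ℕ → ℕ) (N : ℕ) : (ℕ → I) → ℝ≥0∞ :=
  LM (Finset.Ico K (K + N)) (fun X => ind (NoOcc (K + 1) p 0 (K + N) X))

/-- transfer operator, `m` steps -/
def T (K : ℕ) (p : ℕ → ℕ) (m : ℕ) (G : (ℕ → I) → ℝ≥0∞) : (ℕ → I) → ℝ≥0∞ :=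
  LM (Finset.Ico K (K + m)) (fun X => ind (NoOcc (K + 1) p 0 (K + m) X) * G (sh m X))

lemma measurable_F (N : ℕ) : Measurable (F K p N) :=
  measurable_LM (measurable_ind (measurableSet_noOcc _ _ _ _))

lemma dep_F (N : ℕ) : Dep (F K p N) (Set.Iio K) := by
  have := (dep_noOcc (K + 1) p 0 (K + N)).LM (s := Finset.Ico K (K + N))
  refine this.mono fun i hi => ?_
  have h1 : i < K + N := hi.1.2
  have h2 : ¬ (K ≤ i ∧ i < K + N) := fun h => hi.2 (by simpa using h)
  show i < K
  omega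

lemma noOcc_split (a b c : ℕ) (X : ℕ → I) (hab : a + K ≤ b) (hbc : b ≤ c) :
    NoOcc (K + 1) p a c X ↔ NoOcc (K + 1) p a b X ∧ NoOcc (K + 1) p (b - K) c X := by
  constructor
  · intro h
    exact ⟨fun i h1 h2 => h i h1 (by omega), fun i h1 h2 => h i (by omega) h2⟩
  · rintro ⟨h1, h2⟩ i hi hi2
    by_cases hc : i + (K + 1) ≤ b
    · exact h1 i hi hc
    · exact h2 i (by omega) hi2

lemma noOcc_sh (a b m : ℕ) (X : ℕ → I) (k : ℕ) :
    NoOcc k p (a + m) (b + m) X ↔ NoOcc k p a b (sh m X) := by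
  constructor
  · intro h i h1 h2 h3
    refine h (i + m) (by omega) (by omega) ?_
    refine (occAt_congr (X := sh m X) (Y := X) (i := i) (j := i + m) fun a ha => ?_).1 h3
    show X (i + a + m) = X (i + m + a)
    congr 1; omega
  · intro h i h1 h2 h3
    refine h (i - m) (by omega) (by omega) ?_
    refine (occAt_congr (X := X) (Y := sh m X) (i := i) (j := i - m) fun a ha => ?_).1 h3
    show X (i + a) = X (i - m + a + m)
    congr 1; omega

lemma F_shift (m N : ℕ) (X : ℕ → I) : F K p (m + N) X = T K p m (F K p N) X := by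
  have hu : Finset.Ico K (K + (m + N)) = Finset.Ico K (K + m) ∪ Finset.Ico (K + m) (K + N + m) := by
    ext x; simp only [Finset.mem_union, Finset.mem_Ico]; omega
  have hd : Disjoint (Finset.Ico K (K + m)) (Finset.Ico (K + m) (K + N + m)) := by
    rw [Finset.disjoint_left]; intro x; simp only [Finset.mem_Ico]; omega
  unfold F
  rw [hu, LM_union (measurable_ind (measurableSet_noOcc _ _ _ _)) hd]
  unfold T
  congr 1
  funext Y
  have e1 : (fun X => ind (NoOcc (K + 1) p 0 (K + (m + N)) X)) =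
      fun X => ind (NoOcc (K + 1) p 0 (K + m) X) * ind (NoOcc (K + 1) p 0 (K + N) (sh m X)) := by
    funext Z
    rw [← ind_and]
    refine ind_congr ?_
    rw [noOcc_split 0 (K + m) (K + (m + N)) Z (by omega) (by omega)]
    have : K + m - K = 0 + m := by omega
    rw [this, show K + (m + N) = (K + N) + m by omega, noOcc_sh]
  rw [e1, LM_mul_left]
  · congr 1
    rw [← image_add_Ico, LM_shift (f := fun X => ind (NoOcc (K + 1) p 0 (K + N) X))
      (measurable_ind (measurableSet_noOcc _ _ _ _))]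
  · refine (dep_noOcc (K + 1) p 0 (K + m)).mono fun i hi => ?_
    have := hi.2
    simp only [Set.mem_ofPred_eq, Finset.mem_Ico]
    omega
  · exact (measurable_ind (measurableSet_noOcc _ _ _ _)).comp (measurable_sh m)

lemma T_mono {m : ℕ} {G H : (ℕ → I) → ℝ≥0∞} (h : ∀ X, G X ≤ H X) (X : ℕ → I) :
    T K p m G X ≤ T K p m H X := by
  unfold T
  exact LM_mono (fun Y => mul_le_mul_right (h _) _) X

lemma measurable_ind_G {m : ℕ} {s t : ℕ} {G : (ℕ → I) → ℝ≥0∞} (hG : Measurable G) :
    Measurable (fun X => ind (NoOcc (K + 1) p s t X) * G (sh m X)) :=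
  (measurable_ind (measurableSet_noOcc _ _ _ _)).mul (hG.comp (measurable_sh m))

lemma T_add {m : ℕ} {G H : (ℕ → I) → ℝ≥0∞} (hG : Measurable G) (X : ℕ → I) :
    T K p m (fun X => G X + H X) X = T K p m G X + T K p m H X := by
  unfold T
  rw [← LM_add (measurable_ind_G hG)]
  congr 1
  funext Y
  ring

lemma T_const_mul {m : ℕ} {G : (ℕ → I) → ℝ≥0∞} (c : ℝ≥0∞) (hG : Measurable G) (X : ℕ → I) :
    T K p m (fun X => c * G X) X = c * T K p m G X := by
  unfold T
  rw [← LM_const_mul c (measurable_ind_G hG)]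
  congr 1
  funext Y
  ring

/-! ### the functional `Phi` -/

/-- two windows before the final state -/
def PhiAt (K : ℕ) (p : ℕ → ℕ) (e : ℕ) (G : (ℕ → I) → ℝ≥0∞) : (ℕ → I) → ℝ≥0∞ :=
  LM (Finset.Ico (e + 1) (e + 3 + K))
    (fun X => ind (NoOcc (K + 1) p (e + 1) (e + 3 + K) X) * G (sh (e + 3) X))

def Phi (K : ℕ) (p : ℕ → ℕ) (G : (ℕ → I) → ℝ≥0∞) : ℝ≥0∞ := PhiAt K p (3 * K + 3) G (fun _ => 0)

lemma PhiAt_eq {G : (ℕ → I) → ℝ≥0∞} (hG : Dep G (Set.Iio K)) (X : ℕ → I) :
    PhiAt K p (3 * K + 3) G X = Phi K p G := by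
  unfold Phi PhiAt
  refine LM_const_of_dep ?_ _ _
  refine Dep.mul ((dep_noOcc _ _ _ _).mono ?_) ((dep_sh hG _).mono ?_)
  · intro i hi
    simpa using hi
  · intro i hi
    have h1 := hi.1
    have h2 := hi.2
    simp only [Finset.coe_Ico, Set.mem_Ico]
    omega

/-- upper Harnack bound -/
lemma T_le {G : (ℕ → I) → ℝ≥0∞} (hGm : Measurable G) (hG : Dep G (Set.Iio K)) (X : ℕ → I) :
    T K p (3 * K + 6) G X ≤ F K p 2 X * Phi K p G := by
  have hu : Finset.Ico K (K + (3 * K + 6)) =
      Finset.Ico K (K + 2) ∪ (Finset.Ico (K + 2) (3 * K + 4) ∪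
        Finset.Ico (3 * K + 3 + 1) (3 * K + 3 + 3 + K)) := by
    ext x; simp only [Finset.mem_union, Finset.mem_Ico]; omega
  have hd1 : Disjoint (Finset.Ico K (K + 2)) (Finset.Ico (K + 2) (3 * K + 4) ∪
        Finset.Ico (3 * K + 3 + 1) (3 * K + 3 + 3 + K)) := by
    rw [Finset.disjoint_left]; intro x; simp only [Finset.mem_union, Finset.mem_Ico]; omega
  have hd2 : Disjoint (Finset.Ico (K + 2) (3 * K + 4))
        (Finset.Ico (3 * K + 3 + 1) (3 * K + 3 + 3 + K)) := by
    rw [Finset.disjoint_left]; intro x; simp only [Finset.mem_Ico]; omega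
  set f : (ℕ → I) → ℝ≥0∞ := fun X => ind (NoOcc (K + 1) p 0 (K + 2) X) with hf
  set g : (ℕ → I) → ℝ≥0∞ := fun X =>
    ind (NoOcc (K + 1) p (3 * K + 3 + 1) (3 * K + 3 + 3 + K) X) * G (sh (3 * K + 3 + 3) X) with hg
  have hfm : Measurable f := measurable_ind (measurableSet_noOcc _ _ _ _)
  have hgm : Measurable g := measurable_ind_G hGm
  have hgd : Dep g (Set.Ico (3 * K + 4) (4 * K + 6)) := by
    refine Dep.mul ((dep_noOcc _ _ _ _).mono ?_) ((dep_sh hG _).mono ?_)
    · intro i hi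
      have h1 := hi.1
      have h2 := hi.2
      simp only [Set.mem_Ico]; omega
    · intro i hi
      have h1 := hi.1
      have h2 := hi.2
      simp only [Set.mem_Ico]; omega
  have key : T K p (3 * K + 6) G X ≤ LM (Finset.Ico K (K + (3 * K + 6))) (fun X => f X * g X) X := by
    unfold T
    refine LM_mono (fun Y => ?_) X
    simp only [hf, hg, ← mul_assoc, ← ind_and]
    have : 3 * K + 3 + 3 = 3 * K + 6 := by omega
    rw [this]
    gcongr
    refine ind_mono fun h => ⟨fun i h1 h2 => h i h1 (by omega), fun i h1 h2 => h i (by omega) (by omega)⟩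
  refine key.trans ?_
  rw [hu, LM_prod hd1 hfm hgm]
  · have : LM (Finset.Ico (K + 2) (3 * K + 4) ∪ Finset.Ico (3 * K + 3 + 1) (3 * K + 3 + 3 + K)) g X
        = Phi K p G := by
      rw [LM_union hgm hd2, LM_of_dep]
      · exact PhiAt_eq hG X
      · refine (hgd.LM (s := Finset.Ico (3 * K + 3 + 1) (3 * K + 3 + 3 + K))).mono fun i hi => ?_
        have h1 := hi.1.1
        simp only [Set.mem_ofPred_eq, Finset.mem_Ico]
        omega
    rw [this]
    exact le_rfl
  · refine (dep_noOcc (K + 1) p 0 (K + 2)).mono fun i hi => ?_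
    have := hi.2
    simp only [Set.mem_ofPred_eq, Finset.mem_union, Finset.mem_Ico]
    omega
  · refine hgd.mono fun i hi => ?_
    have := hi.1
    simp only [Set.mem_ofPred_eq, Finset.mem_Ico]
    omega

end

end R556.CP
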