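import Pool.Agent.R556.CP.H

/-! MP_249059_co: lower Harnack bound. -/

open MeasureTheory Set Function
open scoped ENNReal unitInterval

namespace R556.CP

noncomputable section

open Classical

variable {K : ℕ} {p : ℕ → ℕ}

lemma LM_pair {i j : ℕ} (hij : i ≠ j) {f : (ℕ → I) → ℝ≥0∞} (hf : Measurable f) (X : ℕ → I) :
    LM {i, j} f X = ∫⁻ x1 : I, ∫⁻ x2 : I, f (update (update X i x1) j x2) := by
  unfold LM
  rw [lmarginal_insert _ hf (by simpa using hij)]
  refine lintegral_congr fun x1 => ?_
  rw [lmarginal_singleton]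

lemma LM_triple {i j l : ℕ} (hij : i ≠ j) (hil : i ≠ l) (hjl : j ≠ l)
    {f : (ℕ → I) → ℝ≥0∞} (hf : Measurable f) (X : ℕ → I) :
    LM {i, j, l} f X =
      ∫⁻ x1 : I, ∫⁻ x2 : I, ∫⁻ x3 : I, f (update (update (update X i x1) j x2) l x3) := by
  unfold LM
  rw [lmarginal_insert _ hf (by simp [hij, hil])]
  refine lintegral_congr fun x1 => ?_
  exact LM_pair hjl hf _

lemma gen (hA : StmtA) (hK : 2 ≤ K) {q : ℕ → ℕ} (hq : Set.InjOn q (Set.Iio (K + 1)))
    (h : ℕ → I) (X : ℕ → I) {i j l : ℕ} (hij : i ≠ j) (hil : i ≠ l) (hjl : j ≠ l)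
    {f2 f3 : (ℕ → I) → ℝ≥0∞} (hf2 : Measurable f2) (hf3 : Measurable f3)
    (e2 : ∀ x1 x2, f2 (update (update X i x1) j x2) =
      ind (¬ occ (K + 1) q (cons x1 h)) * ind (¬ occ (K + 1) q (cons x2 (cons x1 h))))
    (e3 : ∀ x1 x2 x3, f3 (update (update (update X i x1) j x2) l x3) =
      ind (¬ occ (K + 1) q (cons x1 h)) * (ind (¬ occ (K + 1) q (cons x2 (cons x1 h))) *
        ind (¬ (occ (K + 1) q (cons x3 (cons x2 (cons x1 h))) ∨ x3 ∉ Mid)))) :
    LM {i, j} f2 X ≤ 4000 * LM {i, j, l} f3 X := by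
  rw [LM_pair hij hf2, LM_triple hij hil hjl hf3]
  have := hA (K + 1) (by omega) q hq h
  refine (le_of_eq ?_).trans (this.trans (le_of_eq ?_))
  · refine lintegral_congr fun x1 => ?_
    by_cases h1 : occ (K + 1) q (cons x1 h)
    · simp [e2, h1, ind]
    · simp only [e2, h1, if_false]
      refine lintegral_congr fun x2 => ?_
      simp [ind]
  · congr 1
    refine lintegral_congr fun x1 => ?_
    by_cases h1 : occ (K + 1) q (cons x1 h)
    · simp [e3, h1, ind]
    · simp only [e3, h1, if_false]
      refine lintegral_congr fun x2 => ?_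
      by_cases h2 : occ (K + 1) q (cons x2 (cons x1 h))
      · simp [h2, ind]
      · simp only [h2, if_false]
        refine lintegral_congr fun x3 => ?_
        by_cases h3 : occ (K + 1) q (cons x3 (cons x2 (cons x1 h))) ∨ x3 ∉ Mid
        · simp only [ind, not_false_eq_true, if_true, one_mul, h3, not_true_eq_false, if_false]
        · simp only [ind, not_false_eq_true, if_true, one_mul, h3, if_false]

lemma noOcc_two (s : ℕ) (Y : ℕ → I) : NoOcc (K + 1) p s (s + K + 2) Y ↔
    ¬ OccAt (K + 1) p Y s ∧ ¬ OccAt (K + 1) p Y (s + 1) := by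
  constructor
  · intro h; exact ⟨h s le_rfl (by omega), h (s + 1) (by omega) (by omega)⟩
  · rintro ⟨h0, h1⟩ i hi hi2
    rcases (show i = s ∨ i = s + 1 by omega) with rfl | rfl
    · exact h0
    · exact h1

lemma noOcc_three (s : ℕ) (Y : ℕ → I) : NoOcc (K + 1) p s (s + K + 3) Y ↔
    ¬ OccAt (K + 1) p Y s ∧ ¬ OccAt (K + 1) p Y (s + 1) ∧ ¬ OccAt (K + 1) p Y (s + 2) := by
  constructor
  · intro h; exact ⟨h s le_rfl (by omega), h (s + 1) (by omega) (by omega),
      h (s + 2) (by omega) (by omega)⟩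
  · rintro ⟨h0, h1, h2⟩ i hi hi2
    rcases (show i = s ∨ i = s + 1 ∨ i = s + 2 by omega) with rfl | rfl | rfl
    · exact h0
    · exact h1
    · exact h2

lemma measurableSet_mid : MeasurableSet Mid := by
  unfold Mid
  exact (measurableSet_le measurable_const measurable_subtype_coe).inter
    (measurableSet_lt measurable_subtype_coe measurable_const)

lemma measurable_ind_mem {s : Set I} (hs : MeasurableSet s) (i : ℕ) :
    Measurable (fun X : ℕ → I => ind (X i ∈ s)) :=
  measurable_ind (measurable_pi_apply i hs)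

/-- reading a window backwards -/
lemma occ_rev_iff {Y h : ℕ → I} {s : ℕ} (he : ∀ a ≤ K, Y (s + a) = h (K - a)) :
    OccAt (K + 1) p Y s ↔ occ (K + 1) (fun a => p (K - a)) h := by
  unfold OccAt occ
  constructor
  · intro H a ha b hb
    have := H (K - a) (by omega) (K - b) (by omega)
    rw [he _ (by omega), he _ (by omega)] at this
    rwa [show K - (K - a) = a by omega, show K - (K - b) = b by omega] at this
  · intro H a ha b hb
    have := H (K - a) (by omega) (K - b) (by omega)
    rw [he _ (by omega), he _ (by omega)]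
    simp only [show K - (K - a) = a by omega, show K - (K - b) = b by omega] at this
    exact this

lemma occ_fwd_iff {Y h : ℕ → I} {s : ℕ} (he : ∀ a ≤ K, Y (s + a) = h a) :
    OccAt (K + 1) p Y s ↔ occ (K + 1) p h := by
  unfold OccAt occ
  refine forall₂_congr fun a ha => forall₂_congr fun b hb => ?_
  rw [he a (by omega), he b (by omega)]

lemma claimFwd (hA : StmtA) (hK : 2 ≤ K) (hp : Set.InjOn p (Set.Iio (K + 1))) (X : ℕ → I) :
    F K p 2 X ≤ 4000 * LM (Finset.Ico K (K + 3))
      (fun X => ind (NoOcc (K + 1) p 0 (K + 3) X) * ind (X (K + 2) ∈ Mid)) X := by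
  have hq : Set.InjOn (fun a => p (K - a)) (Set.Iio (K + 1)) := by
    intro a ha b hb hab
    have ha' : a < K + 1 := ha
    have hb' : b < K + 1 := hb
    have := hp (show K - a ∈ Set.Iio (K + 1) from (by simp only [Set.mem_Iio]; omega))
      (show K - b ∈ Set.Iio (K + 1) from (by simp only [Set.mem_Iio]; omega)) hab
    omega
  have s2 : Finset.Ico K (K + 2) = {K, K + 1} := by
    ext x; simp only [Finset.mem_Ico, Finset.mem_insert, Finset.mem_singleton]; omega
  have s3 : Finset.Ico K (K + 3) = {K, K + 1, K + 2} := by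
    ext x; simp only [Finset.mem_Ico, Finset.mem_insert, Finset.mem_singleton]; omega
  unfold F
  rw [s2, s3]
  refine gen hA hK hq (fun i => X (K - 1 - i)) X (by omega) (by omega) (by omega)
    (measurable_ind (measurableSet_noOcc _ _ _ _))
    ((measurable_ind (measurableSet_noOcc _ _ _ _)).mul (measurable_ind_mem measurableSet_mid _))
    ?_ ?_
  · intro x1 x2
    rw [← ind_and]
    refine ind_congr ?_
    have := noOcc_two (K := K) (p := p) 0 (update (update X K x1) (K + 1) x2)
    rw [Nat.zero_add] at this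
    rw [this]
    refine and_congr (not_congr ?_) (not_congr ?_)
    · refine occ_rev_iff fun a ha => ?_
      rcases Nat.lt_or_ge a K with h | h
      · rw [update_of_ne (by omega), update_of_ne (by omega)]
        obtain ⟨d, hd⟩ : ∃ d, K - a = d + 1 := ⟨K - a - 1, by omega⟩
        rw [hd]
        show X (0 + a) = X (K - 1 - d)
        congr 1; omega
      · obtain rfl : a = K := by omega
        rw [update_of_ne (by omega), Nat.zero_add, update_self, Nat.sub_self]
        rfl
    · refine occ_rev_iff fun a ha => ?_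
      rcases Nat.lt_or_ge a (K - 1) with h | h
      · rw [update_of_ne (by omega), update_of_ne (by omega)]
        obtain ⟨d, hd⟩ : ∃ d, K - a = d + 1 + 1 := ⟨K - a - 2, by omega⟩
        rw [hd]
        show X (0 + 1 + a) = X (K - 1 - d)
        congr 1; omega
      · rcases (show a = K - 1 ∨ a = K by omega) with h' | h'
        · rw [update_of_ne (by omega), show 0 + 1 + a = K by omega, update_self,
            show K - a = 0 + 1 by omega]
          rfl
        · rw [show 0 + 1 + a = K + 1 by omega, update_self, show K - a = 0 by omega]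
          rfl
  · intro x1 x2 x3
    simp only [update_self]
    rw [← ind_and, ← ind_and, ← ind_and]
    refine ind_congr ?_
    have := noOcc_three (K := K) (p := p) 0 (update (update (update X K x1) (K + 1) x2) (K + 2) x3)
    rw [Nat.zero_add] at this
    rw [this, not_or, not_not]
    have c1 : OccAt (K + 1) p (update (update (update X K x1) (K + 1) x2) (K + 2) x3) 0 ↔
        occ (K + 1) (fun a => p (K - a)) (cons x1 fun i => X (K - 1 - i)) := by
      refine occ_rev_iff fun a ha => ?_
      rcases Nat.lt_or_ge a K with h | h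
      · rw [update_of_ne (by omega), update_of_ne (by omega), update_of_ne (by omega)]
        obtain ⟨d, hd⟩ : ∃ d, K - a = d + 1 := ⟨K - a - 1, by omega⟩
        rw [hd]
        show X (0 + a) = X (K - 1 - d)
        congr 1; omega
      · obtain rfl : a = K := by omega
        rw [update_of_ne (by omega), update_of_ne (by omega), Nat.zero_add, update_self,
          Nat.sub_self]
        rfl
    have c2 : OccAt (K + 1) p (update (update (update X K x1) (K + 1) x2) (K + 2) x3) (0 + 1) ↔
        occ (K + 1) (fun a => p (K - a)) (cons x2 (cons x1 fun i => X (K - 1 - i))) := by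
      refine occ_rev_iff fun a ha => ?_
      rcases Nat.lt_or_ge a (K - 1) with h | h
      · rw [update_of_ne (by omega), update_of_ne (by omega), update_of_ne (by omega)]
        obtain ⟨d, hd⟩ : ∃ d, K - a = d + 1 + 1 := ⟨K - a - 2, by omega⟩
        rw [hd]
        show X (0 + 1 + a) = X (K - 1 - d)
        congr 1; omega
      · rcases (show a = K - 1 ∨ a = K by omega) with h' | h'
        · rw [update_of_ne (by omega), update_of_ne (by omega), show 0 + 1 + a = K by omega,
            update_self, show K - a = 0 + 1 by omega]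
          rfl
        · rw [update_of_ne (by omega), show 0 + 1 + a = K + 1 by omega, update_self,
            show K - a = 0 by omega]
          rfl
    have c3 : OccAt (K + 1) p (update (update (update X K x1) (K + 1) x2) (K + 2) x3) (0 + 2) ↔
        occ (K + 1) (fun a => p (K - a)) (cons x3 (cons x2 (cons x1 fun i => X (K - 1 - i)))) := by
      refine occ_rev_iff fun a ha => ?_
      rcases Nat.lt_or_ge (a + 2) K with h | h
      · rw [update_of_ne (by omega), update_of_ne (by omega), update_of_ne (by omega)]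
        obtain ⟨d, hd⟩ : ∃ d, K - a = d + 1 + 1 + 1 := ⟨K - a - 3, by omega⟩
        rw [hd]
        show X (0 + 2 + a) = X (K - 1 - d)
        congr 1; omega
      · rcases (show a + 2 = K ∨ a + 1 = K ∨ a = K by omega) with h' | h' | h'
        · rw [update_of_ne (by omega), update_of_ne (by omega), show 0 + 2 + a = K by omega,
            update_self, show K - a = 0 + 1 + 1 by omega]
          rfl
        · rw [update_of_ne (by omega), show 0 + 2 + a = K + 1 by omega,
            update_self, show K - a = 0 + 1 by omega]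
          rfl
        · rw [show 0 + 2 + a = K + 2 by omega, update_self, show K - a = 0 by omega]
          rfl
    rw [c1, c2, c3]
    tauto

lemma claimBack (hA : StmtA) (hK : 2 ≤ K) (hp : Set.InjOn p (Set.Iio (K + 1))) (e : ℕ)
    (X : ℕ → I) :
    LM {e + 2, e + 1} (fun X => ind (NoOcc (K + 1) p (e + 1) (e + 3 + K) X)) X ≤
      4000 * LM {e + 2, e + 1, e}
      (fun X => ind (NoOcc (K + 1) p e (e + 3 + K) X) * ind (X e ∈ Mid)) X := by
  refine gen hA hK hp (fun i => X (e + 3 + i)) X (by omega) (by omega) (by omega)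
    (measurable_ind (measurableSet_noOcc _ _ _ _))
    ((measurable_ind (measurableSet_noOcc _ _ _ _)).mul (measurable_ind_mem measurableSet_mid _))
    ?_ ?_
  · intro x1 x2
    rw [← ind_and]
    refine ind_congr ?_
    have := noOcc_two (K := K) (p := p) (e + 1) (update (update X (e + 2) x1) (e + 1) x2)
    rw [show e + 1 + K + 2 = e + 3 + K by omega] at this
    rw [this]
    have c1 : OccAt (K + 1) p (update (update X (e + 2) x1) (e + 1) x2) (e + 1 + 1) ↔
        occ (K + 1) p (cons x1 fun i => X (e + 3 + i)) := by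
      refine occ_fwd_iff fun a ha => ?_
      rw [update_of_ne (by omega)]
      cases a with
      | zero => rw [show e + 1 + 1 + 0 = e + 2 by omega, update_self]; rfl
      | succ a =>
        rw [update_of_ne (by omega)]
        show X (e + 1 + 1 + (a + 1)) = X (e + 3 + a)
        congr 1; omega
    have c2 : OccAt (K + 1) p (update (update X (e + 2) x1) (e + 1) x2) (e + 1) ↔
        occ (K + 1) p (cons x2 (cons x1 fun i => X (e + 3 + i))) := by
      refine occ_fwd_iff fun a ha => ?_
      match a with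
      | 0 => rw [Nat.add_zero, update_self]; rfl
      | 1 => rw [update_of_ne (by omega), update_self]; rfl
      | a + 2 =>
        rw [update_of_ne (by omega), update_of_ne (by omega)]
        show X (e + 1 + (a + 2)) = X (e + 3 + a)
        congr 1; omega
    rw [c1, c2]
    tauto
  · intro x1 x2 x3
    simp only [update_self]
    rw [← ind_and, ← ind_and, ← ind_and]
    refine ind_congr ?_
    have := noOcc_three (K := K) (p := p) e
      (update (update (update X (e + 2) x1) (e + 1) x2) e x3)
    rw [show e + K + 3 = e + 3 + K by omega] at this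
    rw [this, not_or, not_not]
    have c1 : OccAt (K + 1) p (update (update (update X (e + 2) x1) (e + 1) x2) e x3) (e + 2) ↔
        occ (K + 1) p (cons x1 fun i => X (e + 3 + i)) := by
      refine occ_fwd_iff fun a ha => ?_
      rw [update_of_ne (by omega), update_of_ne (by omega)]
      cases a with
      | zero => rw [Nat.add_zero, update_self]; rfl
      | succ a =>
        rw [update_of_ne (by omega)]
        show X (e + 2 + (a + 1)) = X (e + 3 + a)
        congr 1; omega
    have c2 : OccAt (K + 1) p (update (update (update X (e + 2) x1) (e + 1) x2) e x3) (e + 1) ↔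
        occ (K + 1) p (cons x2 (cons x1 fun i => X (e + 3 + i))) := by
      refine occ_fwd_iff fun a ha => ?_
      rw [update_of_ne (by omega)]
      match a with
      | 0 => rw [Nat.add_zero, update_self]; rfl
      | 1 => rw [update_of_ne (by omega), update_self]; rfl
      | a + 2 =>
        rw [update_of_ne (by omega), update_of_ne (by omega)]
        show X (e + 1 + (a + 2)) = X (e + 3 + a)
        congr 1; omega
    have c3 : OccAt (K + 1) p (update (update (update X (e + 2) x1) (e + 1) x2) e x3) e ↔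
        occ (K + 1) p (cons x3 (cons x2 (cons x1 fun i => X (e + 3 + i)))) := by
      refine occ_fwd_iff fun a ha => ?_
      match a with
      | 0 =>
        show update (update (update X (e + 2) x1) (e + 1) x2) e x3 e = _
        rw [update_self]; rfl
      | 1 => rw [update_of_ne (by omega), update_self]; rfl
      | 2 => rw [update_of_ne (by omega), update_of_ne (by omega), update_self]; rfl
      | a + 3 =>
        rw [update_of_ne (by omega), update_of_ne (by omega), update_of_ne (by omega)]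
        show X (e + (a + 3)) = X (e + 3 + a)
        congr 1; omega
    rw [c1, c2, c3]
    tauto


/-! ### products of one-dimensional conditions -/

lemma LM_single (i : ℕ) {s : Set I} (hs : MeasurableSet s) (X : ℕ → I) :
    LM {i} (fun X => ind (X i ∈ s)) X = volume s := by
  unfold LM
  rw [lmarginal_singleton]
  simp only [update_self]
  have : (fun x : I => ind (x ∈ s)) = s.indicator 1 := by
    funext x; by_cases h : x ∈ s <;> simp [ind, h]
  rw [this, lintegral_indicator_one hs]

lemma LM_fill (a : ℕ) (s : ℕ → Set I) (hs : ∀ j, MeasurableSet (s j)) (n : ℕ) (X : ℕ → I) :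
    LM (Finset.Ico a (a + n)) (fun X => ∏ j ∈ Finset.range n, ind (X (a + j) ∈ s j)) X =
      ∏ j ∈ Finset.range n, volume (s j) := by
  induction n with
  | zero => simp [LM]
  | succ n ih =>
    have hu : Finset.Ico a (a + (n + 1)) = Finset.Ico a (a + n) ∪ {a + n} := by
      ext x; simp only [Finset.mem_union, Finset.mem_Ico, Finset.mem_singleton]; omega
    have hd : Disjoint (Finset.Ico a (a + n)) {a + n} := by simp
    simp only [Finset.prod_range_succ]
    rw [hu, LM_prod hd (f := fun X => ∏ j ∈ Finset.range n, ind (X (a + j) ∈ s j))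
      (g := fun X => ind (X (a + n) ∈ s n)), ih, LM_single _ (hs n)]
    · exact Finset.measurable_prod _ fun j _ => measurable_ind_mem (hs j) _
    · exact measurable_ind_mem (hs n) _
    · intro Y Z h
      refine Finset.prod_congr rfl fun j hj => ?_
      have hj' : j < n := by simpa using hj
      rw [h (a + j) (by simp only [Set.mem_ofPred_eq, Finset.mem_singleton]; omega)]
    · intro Y Z h
      show ind (Y (a + n) ∈ s n) = ind (Z (a + n) ∈ s n)
      rw [h (a + n) (by simp)]

lemma prod_ind (n : ℕ) (P : ℕ → Prop) :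
    ∏ j ∈ Finset.range n, ind (P j) = ind (∀ j < n, P j) := by
  induction n with
  | zero => simp [ind]
  | succ n ih =>
    rw [Finset.prod_range_succ, ih, ← ind_and]
    refine ind_congr ⟨fun h j hj => ?_, fun h => ⟨fun j hj => h j (by omega), h n (by omega)⟩⟩
    rcases Nat.lt_succ_iff_lt_or_eq.1 hj with h' | rfl
    · exact h.1 j h'
    · exact h.2

lemma measurableSet_cell (k c : ℕ) : MeasurableSet (Cell k c) := by
  unfold Cell
  exact (measurableSet_le measurable_const (measurable_subtype_coe.const_mul _)).inter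
    (measurableSet_lt (measurable_subtype_coe.const_mul _) measurable_const)

lemma cell_pos {k c : ℕ} (hk : 0 < k) (hc : c < 80 * k) : 0 < volume (Cell k c) := by
  have hk' : (0 : ℝ) < 80 * k := by positivity
  have hc1 : ((c : ℝ) + 1) ≤ 80 * k := by exact_mod_cast hc
  have hx : (c : ℝ) / (80 * k) ∈ (I : Set ℝ) :=
    ⟨by positivity, (div_le_one hk').2 (by linarith)⟩
  have hy : ((c : ℝ) + 1) / (80 * k) ∈ (I : Set ℝ) :=
    ⟨by positivity, (div_le_one hk').2 hc1⟩
  have hsub : Set.Ico (⟨_, hx⟩ : I) ⟨_, hy⟩ ⊆ Cell k c := by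
    rintro z ⟨h1, h2⟩
    have h1' : (c : ℝ) / (80 * k) ≤ (z : ℝ) := h1
    have h2' : (z : ℝ) < ((c : ℝ) + 1) / (80 * k) := h2
    refine ⟨?_, ?_⟩
    · rw [div_le_iff₀ hk'] at h1'; linarith
    · rw [lt_div_iff₀ hk'] at h2'; linarith
  refine lt_of_lt_of_le ?_ (measure_mono hsub)
  rw [unitInterval.volume_Ico]
  rw [ENNReal.ofReal_pos]
  show 0 < ((c : ℝ) + 1) / (80 * k) - (c : ℝ) / (80 * k)
  rw [← sub_div]
  have : (c : ℝ) + 1 - c = 1 := by ring
  rw [this]
  positivity

/-- backward claim in integrated form -/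
lemma phi_le (hA : StmtA) (hK : 2 ≤ K) (hp : Set.InjOn p (Set.Iio (K + 1))) (e : ℕ)
    {G : (ℕ → I) → ℝ≥0∞} (hGm : Measurable G) (hG : Dep G (Set.Iio K)) (X : ℕ → I) :
    PhiAt K p e G X ≤ 4000 * LM (Finset.Ico e (e + 3 + K))
      (fun X => (ind (NoOcc (K + 1) p e (e + 3 + K) X) * ind (X e ∈ Mid)) * G (sh (e + 3) X)) X := by
  have u1 : Finset.Ico (e + 1) (e + 3 + K) = Finset.Ico (e + 3) (e + 3 + K) ∪ {e + 2, e + 1} := by
    ext x
    simp only [Finset.mem_union, Finset.mem_Ico, Finset.mem_insert, Finset.mem_singleton]; omega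
  have u2 : Finset.Ico e (e + 3 + K) = Finset.Ico (e + 3) (e + 3 + K) ∪ {e + 2, e + 1, e} := by
    ext x
    simp only [Finset.mem_union, Finset.mem_Ico, Finset.mem_insert, Finset.mem_singleton]; omega
  have d1 : Disjoint (Finset.Ico (e + 3) (e + 3 + K)) {e + 2, e + 1} := by
    rw [Finset.disjoint_left]; intro x
    simp only [Finset.mem_Ico, Finset.mem_insert, Finset.mem_singleton]; omega
  have d2 : Disjoint (Finset.Ico (e + 3) (e + 3 + K)) {e + 2, e + 1, e} := by
    rw [Finset.disjoint_left]; intro x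
    simp only [Finset.mem_Ico, Finset.mem_insert, Finset.mem_singleton]; omega
  have m1 : Measurable (fun X => ind (NoOcc (K + 1) p (e + 1) (e + 3 + K) X)) :=
    measurable_ind (measurableSet_noOcc _ _ _ _)
  have m2 : Measurable
      (fun X => ind (NoOcc (K + 1) p e (e + 3 + K) X) * ind (X e ∈ Mid)) :=
    (measurable_ind (measurableSet_noOcc _ _ _ _)).mul (measurable_ind_mem measurableSet_mid _)
  have mG : Measurable (fun X => G (sh (e + 3) X)) := hGm.comp (measurable_sh _)
  unfold PhiAt
  rw [u1, u2, LM_union (f := fun X => ind (NoOcc (K + 1) p (e + 1) (e + 3 + K) X) *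
      G (sh (e + 3) X)) (m1.mul mG) d1,
    LM_union (f := fun X => (ind (NoOcc (K + 1) p e (e + 3 + K) X) *
      ind (X e ∈ Mid)) * G (sh (e + 3) X)) (m2.mul mG) d2,
    ← LM_const_mul _ (measurable_LM (f := fun X => (ind (NoOcc (K + 1) p e (e + 3 + K) X) *
      ind (X e ∈ Mid)) * G (sh (e + 3) X)) (m2.mul mG))]
  refine LM_mono (fun Y => ?_) X
  have dG1 : Dep (fun X => G (sh (e + 3) X)) {i | i ∉ ({e + 2, e + 1} : Finset ℕ)} := by
    refine (dep_sh hG _).mono fun i hi => ?_
    have := hi.1
    simp only [Set.mem_ofPred_eq, Finset.mem_insert, Finset.mem_singleton]; omega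
  have dG2 : Dep (fun X => G (sh (e + 3) X)) {i | i ∉ ({e + 2, e + 1, e} : Finset ℕ)} := by
    refine (dep_sh hG _).mono fun i hi => ?_
    have := hi.1
    simp only [Set.mem_ofPred_eq, Finset.mem_insert, Finset.mem_singleton]; omega
  have r1 := LM_mul_left dG1 m1 Y
  have r2 := LM_mul_left dG2 m2 Y
  have c1 : LM {e + 2, e + 1} (fun X => ind (NoOcc (K + 1) p (e + 1) (e + 3 + K) X) *
      G (sh (e + 3) X)) Y = G (sh (e + 3) Y) *
      LM {e + 2, e + 1} (fun X => ind (NoOcc (K + 1) p (e + 1) (e + 3 + K) X)) Y := by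
    rw [← r1]; congr 1; funext Z; ring
  have c2 : LM {e + 2, e + 1, e} (fun X => (ind (NoOcc (K + 1) p e (e + 3 + K) X) *
      ind (X e ∈ Mid)) * G (sh (e + 3) X)) Y = G (sh (e + 3) Y) *
      LM {e + 2, e + 1, e} (fun X => ind (NoOcc (K + 1) p e (e + 3 + K) X) * ind (X e ∈ Mid)) Y := by
    rw [← r2]; congr 1; funext Z; ring
  rw [c1, c2]
  calc G (sh (e + 3) Y) *
      LM {e + 2, e + 1} (fun X => ind (NoOcc (K + 1) p (e + 1) (e + 3 + K) X)) Y
      ≤ G (sh (e + 3) Y) * (4000 * LM {e + 2, e + 1, e}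
        (fun X => ind (NoOcc (K + 1) p e (e + 3 + K) X) * ind (X e ∈ Mid)) Y) := by
        gcongr
        exact claimBack hA hK hp e Y
    _ = _ := by ring

/-- Harnack, lower bound -/
theorem T_ge (hA : StmtA) (hB : StmtB) (hK : 2 ≤ K) (hp : Set.InjOn p (Set.Iio (K + 1))) :
    ∃ κ : ℝ≥0∞, 0 < κ ∧ κ ≤ 1 ∧ ∀ G : (ℕ → I) → ℝ≥0∞, Measurable G → Dep G (Set.Iio K) →
      ∀ X, κ * (F K p 2 X * Phi K p G) ≤ T K p (3 * K + 6) G X := by
  obtain ⟨c, hc, hfill⟩ := hB (K + 1) (by omega) p hp
  set w : ℝ≥0∞ := ∏ j ∈ Finset.range (2 * K), volume (Cell (K + 1) (c (j + 1))) with hw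
  have hw0 : 0 < w := by
    rw [hw, pos_iff_ne_zero, Finset.prod_ne_zero_iff]
    intro j _
    exact (cell_pos (by omega) (hc _)).ne'
  have hw1 : w ≤ 1 := by
    rw [hw]
    exact Finset.prod_le_one' fun j _ => prob_le_one
  refine ⟨w * ((4000)⁻¹ * (4000)⁻¹), ?_, ?_, ?_⟩
  · refine pos_iff_ne_zero.2 (mul_ne_zero hw0.ne' (mul_ne_zero ?_ ?_)) <;> simp
  · have : (4000 : ℝ≥0∞)⁻¹ ≤ 1 := by
      rw [ENNReal.inv_le_one]; norm_num
    calc w * ((4000)⁻¹ * (4000)⁻¹) ≤ 1 * (1 * 1) := by gcongr
      _ = 1 := by simp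
  intro G hGm hG X
  set f1 : (ℕ → I) → ℝ≥0∞ := fun X => ind (NoOcc (K + 1) p 0 (K + 3) X) * ind (X (K + 2) ∈ Mid)
    with hf1
  set f2 : (ℕ → I) → ℝ≥0∞ := fun X =>
    ∏ j ∈ Finset.range (2 * K), ind (X (K + 3 + j) ∈ Cell (K + 1) (c (j + 1))) with hf2
  set f3 : (ℕ → I) → ℝ≥0∞ := fun X => (ind (NoOcc (K + 1) p (3 * K + 3) (3 * K + 3 + 3 + K) X) *
    ind (X (3 * K + 3) ∈ Mid)) * G (sh (3 * K + 3 + 3) X) with hf3
  have m1 : Measurable f1 :=
    (measurable_ind (measurableSet_noOcc _ _ _ _)).mul (measurable_ind_mem measurableSet_mid _)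
  have m2 : Measurable f2 :=
    Finset.measurable_prod _ fun j _ => measurable_ind_mem (measurableSet_cell _ _) _
  have m3 : Measurable f3 :=
    ((measurable_ind (measurableSet_noOcc _ _ _ _)).mul
      (measurable_ind_mem measurableSet_mid _)).mul (hGm.comp (measurable_sh _))
  have D1 : Dep f1 (Set.Iio (K + 3)) := by
    intro Y Z h
    simp only [hf1]
    rw [h (K + 2) (show K + 2 < K + 3 by omega),
      ind_congr (noOcc_congr fun i _ h2 => h i h2)]
  have D2 : Dep f2 (Set.Ico (K + 3) (3 * K + 3)) := by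
    intro Y Z h
    simp only [hf2]
    refine Finset.prod_congr rfl fun j hj => ?_
    have hj' : j < 2 * K := by simpa using hj
    rw [h (K + 3 + j) ⟨by omega, by omega⟩]
  have D3 : Dep f3 (Set.Ici (3 * K + 3)) := by
    intro Y Z h
    simp only [hf3]
    rw [h (3 * K + 3) (le_refl (3 * K + 3)), ind_congr (noOcc_congr fun i h1 _ => h i h1)]
    congr 1
    refine dep_sh hG _ _ _ fun i hi => h i ?_
    have := hi.1
    show 3 * K + 3 ≤ i
    omega
  have key : ∀ Y, f1 Y * (f2 Y * f3 Y) ≤
      ind (NoOcc (K + 1) p 0 (K + (3 * K + 6)) Y) * G (sh (3 * K + 6) Y) := by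
    intro Y
    have e : f1 Y * (f2 Y * f3 Y) = ind (((NoOcc (K + 1) p 0 (K + 3) Y ∧ Y (K + 2) ∈ Mid) ∧
        (∀ j < 2 * K, Y (K + 3 + j) ∈ Cell (K + 1) (c (j + 1)))) ∧
        (NoOcc (K + 1) p (3 * K + 3) (3 * K + 3 + 3 + K) Y ∧ Y (3 * K + 3) ∈ Mid)) *
        G (sh (3 * K + 6) Y) := by
      simp only [hf1, hf2, hf3, prod_ind, show 3 * K + 3 + 3 = 3 * K + 6 by omega]
      rw [ind_and, ind_and, ind_and, ind_and]
      ring
    rw [e]
    gcongr
    refine ind_mono ?_
    rintro ⟨⟨⟨h1, hb⟩, hcell⟩, h3, he⟩ i hi0 hi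
    by_cases ha : i + (K + 1) ≤ K + 3
    · exact h1 i hi0 ha
    by_cases hc' : 3 * K + 3 ≤ i
    · exact h3 i hc' (by omega)
    · refine hfill Y (K + 2) hb ?_ ?_ i (by omega) (by omega)
      · rw [show K + 2 + (2 * (K + 1) - 1) = 3 * K + 3 by omega]; exact he
      · intro j hj1 hj2
        have := hcell (j - 1) (by omega)
        rw [show K + 3 + (j - 1) = K + 2 + j by omega, show j - 1 + 1 = j by omega] at this
        exact this
  have hu : Finset.Ico K (K + (3 * K + 6)) =
      Finset.Ico K (K + 3) ∪ (Finset.Ico (K + 3) (K + 3 + 2 * K) ∪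
        Finset.Ico (3 * K + 3) (3 * K + 3 + 3 + K)) := by
    ext x; simp only [Finset.mem_union, Finset.mem_Ico]; omega
  have hd1 : Disjoint (Finset.Ico K (K + 3)) (Finset.Ico (K + 3) (K + 3 + 2 * K) ∪
        Finset.Ico (3 * K + 3) (3 * K + 3 + 3 + K)) := by
    rw [Finset.disjoint_left]; intro x; simp only [Finset.mem_union, Finset.mem_Ico]; omega
  have hd2 : Disjoint (Finset.Ico (K + 3) (K + 3 + 2 * K))
        (Finset.Ico (3 * K + 3) (3 * K + 3 + 3 + K)) := by
    rw [Finset.disjoint_left]; intro x; simp only [Finset.mem_Ico]; omega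
  have hlow : LM (Finset.Ico K (K + (3 * K + 6))) (fun X => f1 X * (f2 X * f3 X)) X ≤
      T K p (3 * K + 6) G X := by
    unfold T
    exact LM_mono key X
  refine le_trans ?_ hlow
  have q1 : Dep f1 {i | i ∉ (Finset.Ico (K + 3) (K + 3 + 2 * K) ∪
        Finset.Ico (3 * K + 3) (3 * K + 3 + 3 + K))} := D1.mono fun i hi => by
    have h1 : i < K + 3 := hi
    simp only [Set.mem_ofPred_eq, Finset.mem_union, Finset.mem_Ico]; omega
  have q2 : Dep f2 {i | i ∉ Finset.Ico K (K + 3)} := D2.mono fun i hi => by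
    have h1 := hi.1
    simp only [Set.mem_ofPred_eq, Finset.mem_Ico]; omega
  have q3 : Dep f3 {i | i ∉ Finset.Ico K (K + 3)} := D3.mono fun i hi => by
    have h1 : 3 * K + 3 ≤ i := hi
    simp only [Set.mem_ofPred_eq, Finset.mem_Ico]; omega
  have q4 : Dep f2 {i | i ∉ Finset.Ico (3 * K + 3) (3 * K + 3 + 3 + K)} := D2.mono fun i hi => by
    have h1 := hi.1
    have h2 := hi.2
    simp only [Set.mem_ofPred_eq, Finset.mem_Ico]; omega
  have q5 : Dep f3 {i | i ∉ Finset.Ico (K + 3) (K + 3 + 2 * K)} := D3.mono fun i hi => by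
    have h1 : 3 * K + 3 ≤ i := hi
    simp only [Set.mem_ofPred_eq, Finset.mem_Ico]; omega
  rw [hu, LM_prod hd1 (f := f1) (g := fun X => f2 X * f3 X) m1 (m2.mul m3) q1 (Dep.mul q2 q3),
    LM_prod hd2 (f := f2) (g := f3) m2 m3 q4 q5]
  have e2 : LM (Finset.Ico (K + 3) (K + 3 + 2 * K)) f2 X = w :=
    LM_fill (K + 3) (fun j => Cell (K + 1) (c (j + 1))) (fun j => measurableSet_cell _ _) _ X
  rw [e2]
  have b1 := claimFwd hA hK hp X
  have b3 := phi_le hA hK hp (3 * K + 3) hGm hG X
  rw [PhiAt_eq hG X] at b3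
  have c1 : (4000 : ℝ≥0∞)⁻¹ * F K p 2 X ≤ LM (Finset.Ico K (K + 3)) f1 X := by
    rw [ENNReal.inv_mul_le_iff (by norm_num) (by norm_num)]
    exact b1
  have c3 : (4000 : ℝ≥0∞)⁻¹ * Phi K p G ≤
      LM (Finset.Ico (3 * K + 3) (3 * K + 3 + 3 + K)) f3 X := by
    rw [ENNReal.inv_mul_le_iff (by norm_num) (by norm_num)]
    exact b3
  calc w * ((4000)⁻¹ * (4000)⁻¹) * (F K p 2 X * Phi K p G)
      = ((4000)⁻¹ * F K p 2 X) * (w * ((4000)⁻¹ * Phi K p G)) := by ring
    _ ≤ _ := by gcongr

end

end R556.CP
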